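import Pool.Agent.R128.AI.Stm

namespace R128.AI

theorem main_of (pz : PZ_stm) (ps : PS_stm) (van : Van_stm) (intp : Intp_stm) (la1 : LA1_stm)
    (la2 : LA2_stm) (la3 : LA3_stm) (rankA : RankA_stm) (ind : Ind_stm) (thr : Thr_stm)
    (rankB : RankB_stm) (mixR : MixR_stm) (pad : Pad_stm) (mix : Mix_stm) (bol : Bol_stm)
    (usize : USize_stm) (usum : USum_stm) (udel : UDel_stm) (udels : UDels_stm) (uexh : UExH_stm)
    (uex : UEx_stm) (ucon : UCon_stm) (uni : Uni_stm) (minC : MinC_stm) (crude : Crude_stm)
    (heavy : Heavy_stm) (near : Near_stm) (str : Str_stm) (covB : CovB_stm) (nlow : NLow_stm)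
    (meet : Meet_stm) (meetE : MeetE_stm) (trB : TrB_stm) (cntY : CntY_stm) (caseY : CaseY_stm)
    (num1 : Num1_stm) (num2 : Num2_stm) (main : Main_stm) : Main := by
  have h1 : Intp := intp pz van
  have h2 : RankA := rankA pz ps h1 la1
  have h3 : Ind := ind pz van
  have h4 : Thr := thr h1 la3
  have h5 : RankB := rankB h3 h4 la2
  have h6 : MixR := mixR h2 h5
  have h7 : Mix := mix pad h6
  have h8 : UDels := udels (udel usum)
  have h9 : UEx := uex (uexh h8)
  have h10 : Uni := uni usize h9 ucon
  have h11 : Crude := crude minC bol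
  have h12 : Heavy := heavy h11
  have h13 : Str := str minC bol h10 h7
  exact main h12 near h13 covB nlow (caseY meet meetE trB cntY) num1 num2

end R128.AI
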