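import Pool.Agent.R128.AI.Stm

/-!
# Piece Bol of project AI (MP_67e379_co)
-/

set_option autoImplicit false

open Finset

namespace R128.AI

theorem Bol.choose_le {x y a b : ℕ} (hx : x ≤ a) (hy : y ≤ b) : (x + y).choose x ≤ (a + b).choose a := by
  have h1 : (x + y).choose x = (x + y).choose y := Nat.choose_symm_add
  have h2 : (a + y).choose y = (a + y).choose a := Nat.choose_symm_add.symm
  calc (x + y).choose x = (x + y).choose y := h1
    _ ≤ (a + y).choose y := Nat.choose_le_choose y (by omega)
    _ = (a + y).choose a := h2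
    _ ≤ (a + b).choose a := Nat.choose_le_choose a (by omega)

theorem Bol_proof : Bol_stm := by
  classical
  intro a b ι α _ T U hT hU hc
  let G : Finset α := Finset.univ.biUnion (fun i => T i ∪ U i)
  have h := Pool.Agent.H416Sens.bollobas G Finset.univ T U
    (fun i _ x hx => Finset.mem_biUnion.2 ⟨i, Finset.mem_univ _, Finset.mem_union_left _ hx⟩)
    (fun i _ x hx => Finset.mem_biUnion.2 ⟨i, Finset.mem_univ _, Finset.mem_union_right _ hx⟩)
    (fun i _ => hc.1 i) (fun i _ j _ hij => hc.2 i j hij)
  have hC : (0 : ℝ) < ((a + b).choose a : ℝ) := by exact_mod_cast Nat.choose_pos (by omega)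
  have h1 : (Fintype.card ι : ℝ) * (1 / ((a + b).choose a : ℝ)) ≤ 1 := by
    refine le_trans ?_ h
    rw [← nsmul_eq_mul, ← Finset.card_univ]
    refine Finset.card_nsmul_le_sum _ _ _ fun i _ => ?_
    have h0 : (0 : ℝ) < (((T i).card + (U i).card).choose (T i).card : ℝ) := by
      exact_mod_cast Nat.choose_pos (by omega)
    exact one_div_le_one_div_of_le h0 (by exact_mod_cast Bol.choose_le (hT i) (hU i))
  rw [mul_one_div, div_le_one hC] at h1
  exact_mod_cast h1

end R128.AI
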