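import Pool.Agent.R128.AI.Stm

set_option autoImplicit false

open Finset Classical

namespace R128.AI

theorem CaseY_proof : CaseY_stm := by
  intro meet meetE trB cntY a s α F H Y ha hF hYH hY hn
  have h1 : ∀ B ∈ F, a ≤ (B ∩ Y).card := meet a s α F H Y ha hF hYH hY hn
  have h2 : ∀ B ∈ F, (B ∩ Y).card = a := meetE a s α F Y ha hF hY h1
  refine cntY a s α F Y hY h2 (trB a s α F Y ha hF hY h2 ?_)
  intro T hT
  have h3 := hn T hT
  have h4 : 0 < ((Ord H F).filter (fun A => A ∩ H = T)).card := by omega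
  obtain ⟨A, hA⟩ := card_pos.1 h4
  rw [mem_filter] at hA
  have hTY : T ⊆ Y := (mem_powersetCard.1 hT).1
  refine ⟨A, (mem_filter.1 hA.1).1, ?_⟩
  ext x
  constructor
  · intro hx
    rw [mem_inter] at hx
    rw [← hA.2, mem_inter]
    exact ⟨hx.1, hYH hx.2⟩
  · intro hx
    rw [mem_inter]
    refine ⟨?_, hTY hx⟩
    rw [← hA.2, mem_inter] at hx
    exact hx.1

end R128.AI
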