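import Pool.Agent.R128.AI.Stm

/-! # CntY: fiberwise count (piece of MP_67e379_co) -/

set_option autoImplicit false

open Finset
open scoped Classical

namespace R128.AI

theorem CntY_proof : CntY_stm := by
  intro a s α F Y hY hF hT
  have hmaps : ∀ B ∈ F, B ∩ Y ∈ powersetCard a Y := by
    intro B hB
    rw [mem_powersetCard]
    exact ⟨inter_subset_right, hF B hB⟩
  rw [card_eq_sum_card_fiberwise hmaps]
  calc ∑ T ∈ powersetCard a Y, (F.filter (fun B => B ∩ Y = T)).card
      ≤ ∑ _T ∈ powersetCard a Y, (s + 1) := sum_le_sum hT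
    _ = (s + 1) * (2 * a).choose a := by
        rw [sum_const, card_powersetCard, hY, smul_eq_mul, mul_comm]

end R128.AI
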