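import Pool.Agent.R128.AI.Stm

set_option autoImplicit false

open Finset Classical

namespace R128.AI

theorem CovB_proof : CovB_stm := by
  unfold CovB_stm CovB
  intro k s N c α F H G hGF hGc hcov hF
  have h1 : F.card = (Spc H F).card + (Ord H F).card := by
    unfold Spc Ord
    have := Finset.card_filter_add_card_filter_not (s := F) (fun A : Finset α => A ⊆ H)
    rw [← this]
  have h2 : (Spc H F).card ≤ 2 ^ H.card := by
    rw [← card_powerset]
    apply card_le_card
    intro A hA
    unfold Spc at hA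
    rw [mem_filter] at hA
    exact mem_powerset.2 hA.2
  have hsub : Ord H F ⊆ G.biUnion (fun B => F.filter (fun A => Disjoint (A ∩ H) (B ∩ H))) := by
    intro A hA
    obtain ⟨B, hB, hd⟩ := hcov A hA
    rw [mem_biUnion]
    refine ⟨B, hB, ?_⟩
    rw [mem_filter]
    unfold Ord at hA
    rw [mem_filter] at hA
    exact ⟨hA.1, hd⟩
  have h3 : (Ord H F).card ≤ ∑ B ∈ G, (F.filter (fun A => Disjoint (A ∩ H) (B ∩ H))).card :=
    (card_le_card hsub).trans card_biUnion_le
  have h4 : N * (Ord H F).card ≤ c * ((N + k) * s) := by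
    calc N * (Ord H F).card
        ≤ N * ∑ B ∈ G, (F.filter (fun A => Disjoint (A ∩ H) (B ∩ H))).card :=
          Nat.mul_le_mul_left _ h3
      _ = ∑ B ∈ G, N * (F.filter (fun A => Disjoint (A ∩ H) (B ∩ H))).card := by rw [mul_sum]
      _ ≤ ∑ _B ∈ G, (N + k) * s := sum_le_sum fun B hB => hF B (hGF hB)
      _ = G.card * ((N + k) * s) := by rw [sum_const, smul_eq_mul]
      _ ≤ c * ((N + k) * s) := Nat.mul_le_mul_right _ hGc
  rw [h1, mul_add]
  exact Nat.add_le_add (Nat.mul_le_mul_left _ h2) h4

end R128.AI
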