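import Pool.Agent.R128.AI.Stm

set_option autoImplicit false

open Finset Classical

namespace R128.AI

theorem Crude_proof : Crude_stm := by
  unfold Crude_stm
  intro hM hB
  unfold Crude
  intro k s α F hF
  have hcov : ∀ x ∈ F, ∃ y ∈ F, Disjoint x y := by
    intro x hx
    have h1 := (hF.2 x hx).1
    obtain ⟨y, hy⟩ := Finset.card_pos.1 h1
    rw [mem_filter] at hy
    exact ⟨y, hy.1, hy.2⟩
  obtain ⟨G, hGF, hG1, hG2⟩ := hM (Finset α) (Finset α) (fun A B => Disjoint A B) F F hcov
  choose! T hT using hG2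
  have hcard : G.card ≤ (k + k).choose k := by
    have h := hB k k {y // y ∈ G} α (fun y => T y.1) (fun y => y.1)
      (fun y => (hF.1 _ (hT y.1 y.2).1).le) (fun y => (hF.1 _ (hGF y.2)).le)
      ⟨fun y => (hT y.1 y.2).2.1, fun y z hyz => (hT y.1 y.2).2.2 z.1 z.2
        (fun h => hyz (Subtype.ext h.symm))⟩
    rw [Fintype.card_coe] at h
    exact h
  have hsub : F ⊆ G.biUnion (fun B => F.filter (fun A => Disjoint B A)) := by
    intro A hA
    obtain ⟨B, hB1, hd⟩ := hG1 A hA
    rw [mem_biUnion]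
    refine ⟨B, hB1, ?_⟩
    rw [mem_filter]
    exact ⟨hA, hd.symm⟩
  have h1 : F.card ≤ ∑ B ∈ G, (F.filter (fun A => Disjoint B A)).card :=
    (card_le_card hsub).trans card_biUnion_le
  have h2 : ∑ B ∈ G, (F.filter (fun A => Disjoint B A)).card ≤ ∑ _B ∈ G, s := by
    apply sum_le_sum
    intro B hB1
    have := (hF.2 B (hGF hB1)).2
    convert this
  rw [sum_const, smul_eq_mul] at h2
  have h3 : (k + k).choose k = (2 * k).choose k := by rw [two_mul]
  rw [h3] at hcard
  calc F.card ≤ G.card * s := h1.trans h2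
    _ ≤ (2 * k).choose k * s := Nat.mul_le_mul_right _ hcard
    _ = s * (2 * k).choose k := mul_comm _ _

end R128.AI
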