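import Mathlib
import Pool.Agent.H416Sens.Bollobas

/-!
# Project AI: almost intersecting hypergraphs (MP_67e379_co), definitions
-/

set_option autoImplicit false

open Finset

namespace R128.AI

/-- `prod_{z in Z} prod_{x in T} (z - x)`. -/
noncomputable def PP (T Z : Finset ℝ) : ℝ := ∏ z ∈ Z, ∏ x ∈ T, (z - x)

/-- `T i, U i` is a cross-intersecting set pair system. -/
def Cross {ι α : Type} (T U : ι → Finset α) : Prop :=
  (∀ i, Disjoint (T i) (U i)) ∧ ∀ i j, i ≠ j → ¬ Disjoint (T i) (U j)

/-- The relations between the two systems. -/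
def Rel {ι κ α : Type} (T U : ι → Finset α) (T' B : κ → Finset α) : Prop :=
  Cross T U ∧ Cross T' B ∧ (∀ j i, ¬ Disjoint (T' j) (T i)) ∧ (∀ j i, ¬ Disjoint (T' j) (U i)) ∧
    ∀ j l, ¬ Disjoint (T' j) (T' l)

/-- Every edge has `k` elements and is disjoint from at least one and at most `s` edges. -/
def AInt {α : Type} [DecidableEq α] (k s : ℕ) (F : Finset (Finset α)) : Prop :=
  (∀ A ∈ F, A.card = k) ∧ ∀ A ∈ F, 1 ≤ (F.filter (fun B => Disjoint A B)).card ∧
    (F.filter (fun B => Disjoint A B)).card ≤ s

/-- The special edges: those inside `H`. -/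
def Spc {α : Type} [DecidableEq α] (H : Finset α) (F : Finset (Finset α)) : Finset (Finset α) :=
  F.filter (fun A => A ⊆ H)

/-- The other edges. -/
def Ord {α : Type} [DecidableEq α] (H : Finset α) (F : Finset (Finset α)) : Finset (Finset α) :=
  F.filter (fun A => ¬ A ⊆ H)

/-- The traces on `H` of the ordinary edges. -/
def Tra {α : Type} [DecidableEq α] (H : Finset α) (F : Finset (Finset α)) : Finset (Finset α) :=
  (Ord H F).image (fun A => A ∩ H)

/-- The weight of a set pair. -/
noncomputable def wt (a b : ℕ) : ℝ := 1 / ((a + b).choose a : ℝ)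

end R128.AI
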