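import Pool.Agent.R128.AI.Stm

set_option autoImplicit false

open Finset Classical

namespace R128.AI

theorem Heavy_proof : Heavy_stm := by
  unfold Heavy_stm
  intro hC
  unfold Heavy
  intro k s N α F hs hF
  refine ⟨(F.biUnion id).filter (fun x => s < N * (F.filter (fun A => x ∈ A)).card), ?_, ?_⟩
  · set H := (F.biUnion id).filter (fun x => s < N * (F.filter (fun A => x ∈ A)).card) with hH
    have h1 : H.card * s ≤ N * ∑ x ∈ H, (F.filter (fun A => x ∈ A)).card := by
      rw [mul_sum, ← smul_eq_mul, ← sum_const]
      apply sum_le_sum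
      intro x hx
      rw [hH, mem_filter] at hx
      exact hx.2.le
    have h2 : ∑ x ∈ H, (F.filter (fun A => x ∈ A)).card = ∑ A ∈ F, (H.filter (fun x => x ∈ A)).card :=
      Finset.sum_card_bipartiteAbove_eq_sum_card_bipartiteBelow (fun (x : α) (A : Finset α) => x ∈ A)
    have h3 : ∑ A ∈ F, (H.filter (fun x => x ∈ A)).card ≤ F.card * k := by
      rw [← smul_eq_mul, ← sum_const]
      apply sum_le_sum
      intro A hA
      rw [← hF.1 A hA]
      apply card_le_card
      intro x hx
      rw [mem_filter] at hx
      exact hx.2
    have h4 := hC k s α F hF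
    have h5 : H.card * s ≤ (N * k * (2 * k).choose k) * s := by
      calc H.card * s ≤ N * (F.card * k) := by
            refine h1.trans ?_
            rw [h2]
            exact Nat.mul_le_mul_left _ h3
        _ ≤ N * (s * (2 * k).choose k * k) :=
            Nat.mul_le_mul_left _ (Nat.mul_le_mul_right _ h4)
        _ = (N * k * (2 * k).choose k) * s := by ring
    exact Nat.le_of_mul_le_mul_right h5 hs
  · intro x hx
    by_cases hm : x ∈ F.biUnion id
    · by_contra hcon
      push Not at hcon
      exact hx (mem_filter.2 ⟨hm, hcon⟩)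
    · have h0 : F.filter (fun A => x ∈ A) = ∅ := by
        rw [filter_eq_empty_iff]
        intro A hA hxA
        exact hm (mem_biUnion.2 ⟨A, hA, hxA⟩)
      rw [h0]
      simp

end R128.AI
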