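import Pool.Agent.R128.AI.Stm

set_option autoImplicit false

namespace R128.AI
open Finset Classical

theorem Ind_proof : Ind_stm := by
  intro hPZ hVan a κ _ T' B G hG hT hB hC
  rw [Fintype.linearIndependent_iff]
  intro c hc l
  have h1 : ∀ Z : Finset ℝ, Z.card = a + 1 → ∑ j, c j * PP (T' j) Z = 0 := by
    refine hVan κ a (a + 1) T' c G hT (by omega) ?_
    intro E hE hE'
    have := congrFun hc ⟨E, by rw [mem_powersetCard]; exact ⟨hE, hE'⟩⟩
    simpa [Finset.sum_apply] using this
  have h2 := h1 (B l) (hB l)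
  have h3 : ∑ j, c j * PP (T' j) (B l) = c l * PP (T' l) (B l) := by
    apply Finset.sum_eq_single l
    · intro j _ hj
      have := (hPZ (T' j) (B l)).2 (hC.2 j l hj)
      rw [this, mul_zero]
    · intro h
      exact absurd (mem_univ l) h
  rw [h3] at h2
  rcases mul_eq_zero.1 h2 with h | h
  · exact h
  · exact absurd (hC.1 l) ((hPZ (T' l) (B l)).1 h)

end R128.AI
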