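import Pool.Agent.R128.AI.Stm

set_option autoImplicit false

open Finset Classical

namespace R128.AI

theorem Intp_proof : Intp_stm := by
  intro hPZ hVan a D T U hD hT hU
  have hne : ∀ E ∈ powersetCard a D, PP (D \ E) E ≠ 0 := by
    intro E _ h
    exact (hPZ (D \ E) E).mp h Finset.sdiff_disjoint
  have hz : ∀ E ∈ powersetCard a D, ∀ E' ⊆ D, E'.card = a → E ≠ E' → PP (D \ E) E' = 0 := by
    intro E hE E' hE' hc hn
    rw [hPZ]
    intro hdis
    apply hn
    have h1 := Finset.mem_powersetCard.mp hE
    have h2 : E' ⊆ E := by
      intro x hx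
      by_contra hxE
      exact (Finset.disjoint_left.mp hdis) (Finset.mem_sdiff.mpr ⟨hE' hx, hxE⟩) hx
    exact (Finset.eq_of_subset_of_card_le h2 (by rw [h1.2, hc])).symm
  have key := hVan (Option {E // E ∈ powersetCard a D}) a a
    (fun o => match o with
      | none => T
      | some E => D \ E.1)
    (fun o => match o with
      | none => 1
      | some E => -(PP T E.1 / PP (D \ E.1) E.1)) D
    (by
      intro o
      cases o with
      | none => exact hT
      | some E =>
        have h1 := Finset.mem_powersetCard.mp E.2
        show (D \ E.1).card = a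
        rw [Finset.card_sdiff_of_subset h1.1, h1.2, hD]
        omega)
    (by omega)
    (by
      intro E' hE' hc
      rw [Fintype.sum_option]
      have hmem : E' ∈ powersetCard a D := Finset.mem_powersetCard.mpr ⟨hE', hc⟩
      rw [Finset.sum_eq_single (⟨E', hmem⟩ : {E // E ∈ powersetCard a D})]
      · show 1 * PP T E' + -(PP T E' / PP (D \ E') E') * PP (D \ E') E' = 0
        have := hne E' hmem
        field_simp
        ring
      · intro E _ hn
        show -(PP T E.1 / PP (D \ E.1) E.1) * PP (D \ E.1) E' = 0
        rw [hz E.1 E.2 E' hE' hc (fun h => hn (Subtype.ext h)), mul_zero]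
      · intro h
        exact absurd (Finset.mem_univ _) h)
    U hU
  rw [Fintype.sum_option] at key
  have e : ∑ E : {E // E ∈ powersetCard a D}, -(PP T E.1 / PP (D \ E.1) E.1) * PP (D \ E.1) U =
      -∑ E ∈ powersetCard a D, PP T E * (PP (D \ E) U / PP (D \ E) E) := by
    rw [← Finset.sum_coe_sort (powersetCard a D)
      (fun E => PP T E * (PP (D \ E) U / PP (D \ E) E)), ← Finset.sum_neg_distrib]
    refine Finset.sum_congr rfl fun E _ => ?_
    ring
  have key' : 1 * PP T U + ∑ E : {E // E ∈ powersetCard a D},
      -(PP T E.1 / PP (D \ E.1) E.1) * PP (D \ E.1) U = 0 := key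
  rw [e] at key'
  linarith

end R128.AI
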