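import Pool.Agent.R128.AI.Stm

set_option autoImplicit false

open Finset

namespace R128.AI

namespace LA1

/-- the bilinear form -/
noncomputable def be {ε : Type} [Fintype ε] (σ : ε ≃ ε) (w : ε → ℝ) :
    (ε → ℝ) →ₗ[ℝ] (ε → ℝ) →ₗ[ℝ] ℝ :=
  LinearMap.mk₂ ℝ (fun x y => ∑ e, w e * x e * y (σ e))
    (fun a b c => by
      simp only [Pi.add_apply, ← Finset.sum_add_distrib]
      exact Finset.sum_congr rfl fun e _ => by ring)
    (fun r a c => by
      simp only [Pi.smul_apply, smul_eq_mul, Finset.mul_sum]
      exact Finset.sum_congr rfl fun e _ => by ring)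
    (fun a b c => by
      simp only [Pi.add_apply, ← Finset.sum_add_distrib]
      exact Finset.sum_congr rfl fun e _ => by ring)
    (fun r a c => by
      simp only [Pi.smul_apply, smul_eq_mul, Finset.mul_sum]
      exact Finset.sum_congr rfl fun e _ => by ring)

theorem be_apply {ε : Type} [Fintype ε] (σ : ε ≃ ε) (w : ε → ℝ) (x y : ε → ℝ) :
    be σ w x y = ∑ e, w e * x e * y (σ e) := rfl

theorem be_inj {ε : Type} [Fintype ε] (σ : ε ≃ ε) (w : ε → ℝ) (hw : ∀ e, w e ≠ 0) :
    Function.Injective (be σ w) := by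
  classical
  rw [injective_iff_map_eq_zero]
  intro x hx
  ext e
  have h := congrArg (fun f => f (Pi.single (σ e) 1)) hx
  simp only [be_apply, LinearMap.zero_apply] at h
  rw [Finset.sum_eq_single e] at h
  · simpa [hw e] using h
  · intro b _ hb
    rw [Pi.single_eq_of_ne (fun h => hb (σ.injective h)), mul_zero]
  · intro h; exact absurd (Finset.mem_univ e) h

end LA1

open LA1 in
theorem LA1_proof : LA1_stm := by
  classical
  intro ε ι κ _ _ _ σ w v u v' hw h1 h2 h3 h4 h5
  set X : Submodule ℝ (ε → ℝ) := Submodule.span ℝ (Set.range v') with hX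
  set Y : Submodule ℝ (ε → ℝ) := X ⊔ Submodule.span ℝ (Set.range v) with hY
  -- step 1
  have hXY : X ≤ Y := le_sup_left
  have hvY : ∀ i, v i ∈ Y := fun i =>
    (le_sup_right : Submodule.span ℝ (Set.range v) ≤ Y) (Submodule.subset_span ⟨i, rfl⟩)
  have hXu : ∀ x ∈ X, ∀ j, be σ w x (u j) = 0 := by
    intro x hx j
    have hle : X ≤ LinearMap.ker ((be σ w).flip (u j)) := by
      rw [hX, Submodule.span_le]
      rintro _ ⟨l, rfl⟩
      exact h4 l j
    exact hle hx
  have s1 : Fintype.card ι + Module.finrank ℝ X ≤ Module.finrank ℝ Y := by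
    let φ0 : (ε → ℝ) →ₗ[ℝ] (ι → ℝ) := LinearMap.pi fun j => (be σ w).flip (u j)
    let φ : Y →ₗ[ℝ] (ι → ℝ) := φ0.domRestrict Y
    have hsurj : LinearMap.range φ = ⊤ := by
      rw [eq_top_iff]
      intro z _
      have hz : z = ∑ i, (z i / be σ w (v i) (u i)) • φ ⟨v i, hvY i⟩ := by
        ext j
        rw [Finset.sum_apply, Finset.sum_eq_single j]
        · have : φ ⟨v j, hvY j⟩ j = be σ w (v j) (u j) := rfl
          have h1' : be σ w (v j) (u j) ≠ 0 := h1 j
          rw [Pi.smul_apply, this, smul_eq_mul, div_mul_cancel₀ _ h1']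
        · intro b _ hb
          have : φ ⟨v b, hvY b⟩ j = 0 := h2 b j hb
          rw [Pi.smul_apply, this, smul_zero]
        · intro h; exact absurd (Finset.mem_univ j) h
      rw [hz]
      exact Submodule.sum_mem _ fun i _ => Submodule.smul_mem _ _ (LinearMap.mem_range_self _ _)
    have hker : X.comap Y.subtype ≤ LinearMap.ker φ := by
      intro y hy
      rw [LinearMap.mem_ker]
      ext j
      exact hXu _ hy j
    have hfX : Module.finrank ℝ (X.comap Y.subtype) = Module.finrank ℝ X :=
      (Submodule.comapSubtypeEquivOfLe hXY).finrank_eq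
    have hrn := LinearMap.finrank_range_add_finrank_ker φ
    rw [hsurj, finrank_top, Module.finrank_fintype_fun_eq_card] at hrn
    have := Submodule.finrank_mono hker
    omega
  -- step 2
  have hXv : ∀ x ∈ X, ∀ y ∈ Y, be σ w x y = 0 := by
    intro x hx y hy
    have hle : X ≤ LinearMap.ker ((be σ w).flip y) := by
      rw [hX, Submodule.span_le]
      rintro _ ⟨l, rfl⟩
      have hle2 : Y ≤ LinearMap.ker (be σ w (v' l)) := by
        rw [hY, sup_le_iff]
        constructor
        · rw [hX, Submodule.span_le]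
          rintro _ ⟨m, rfl⟩
          exact h5 l m
        · rw [Submodule.span_le]
          rintro _ ⟨m, rfl⟩
          exact h3 l m
      exact hle2 hy
    exact hle hx
  have s2 : Module.finrank ℝ X ≤ Module.finrank ℝ Y.dualAnnihilator := by
    have hm : X.map (be σ w) ≤ Y.dualAnnihilator := by
      rintro _ ⟨x, hx, rfl⟩
      rw [Submodule.mem_dualAnnihilator]
      intro y hy
      exact hXv x hx y hy
    calc Module.finrank ℝ X = Module.finrank ℝ (X.map (be σ w)) :=
          (Submodule.equivMapOfInjective (be σ w) (be_inj σ w hw) X).finrank_eq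
      _ ≤ _ := Submodule.finrank_mono hm
  have s3 := Subspace.finrank_add_finrank_dualAnnihilator_eq Y
  rw [Module.finrank_fintype_fun_eq_card] at s3
  omega

end R128.AI
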