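import Pool.Agent.R128.AI.Stm

set_option autoImplicit false

open Finset

namespace R128.AI

theorem LA2_proof : LA2_stm := by
  classical
  intro ι τ _ _ A hA
  set v : τ → (ι → ℝ) := fun I j => A j I with hv
  obtain ⟨κ, a, hinj, hspan, hli⟩ := exists_linearIndependent' ℝ v
  have hfin : Finite κ := Finite.of_injective a hinj
  have : Fintype κ := Fintype.ofFinite κ
  have hrank : Module.finrank ℝ (Submodule.span ℝ (Set.range v)) = Fintype.card ι := by
    have h1 : (Matrix.of A).rank = Fintype.card ι := by
      apply LinearIndependent.rank_matrix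
      exact hA
    rw [← h1, Matrix.rank_eq_finrank_span_cols]
    rfl
  have hcard : Fintype.card κ = Fintype.card ι := by
    rw [← hrank, ← hspan, finrank_span_eq_card hli]
  refine ⟨Finset.univ.map ⟨a, hinj⟩, by rw [Finset.card_map, Finset.card_univ, hcard], ?_⟩
  have hr : LinearIndependent ℝ (fun x : Set.range a => v x.1) :=
    (linearIndependent_equiv' (Equiv.ofInjective a hinj) rfl).1 hli
  have hmem : ∀ x : {x // x ∈ Finset.univ.map (⟨a, hinj⟩ : κ ↪ τ)}, x.1 ∈ Set.range a := by
    intro x
    obtain ⟨k, -, hk⟩ := Finset.mem_map.1 x.2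
    exact ⟨k, hk⟩
  exact hr.comp (fun x => ⟨x.1, hmem x⟩) (fun x y h => Subtype.ext (congrArg (fun z => z.1) h))

end R128.AI
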