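import Pool.Agent.R128.AI.Defs

/-!
# Project AI: statements. Here `C = (2 * a).choose a` and `k = a + 1`.
-/

set_option autoImplicit false

open Finset Classical

namespace R128.AI

/-! ## Linear algebra part -/

/-- `PP T Z = 0` iff `T` and `Z` meet. -/
def PZ : Prop := ∀ (T Z : Finset ℝ), PP T Z = 0 ↔ ¬ Disjoint T Z
def PZ_stm : Prop := PZ

/-- symmetry up to sign -/
def PS : Prop := ∀ (T Z : Finset ℝ), PP T Z = (-1) ^ (T.card * Z.card) * PP Z T
def PS_stm : Prop := PS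

/-- vanishing lemma -/
def Van : Prop := ∀ (ι : Type) [Fintype ι] (d m : ℕ) (T : ι → Finset ℝ) (c : ι → ℝ) (D : Finset ℝ),
  (∀ i, (T i).card = d) → m + d ≤ D.card →
  (∀ E : Finset ℝ, E ⊆ D → E.card = m → ∑ i, c i * PP (T i) E = 0) →
  ∀ Z : Finset ℝ, Z.card = m → ∑ i, c i * PP (T i) Z = 0
def Van_stm : Prop := Van

/-- interpolation formula -/
def Intp : Prop := ∀ (a : ℕ) (D T U : Finset ℝ), D.card = 2 * a → T.card = a → U.card = a →
  PP T U = ∑ E ∈ powersetCard a D, PP T E * (PP (D \ E) U / PP (D \ E) E)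
def Intp_stm : Prop := PZ → Van → Intp

/-- the form on `ε → ℝ` -/
def LA1 : Prop := ∀ (ε ι κ : Type) [Fintype ε] [Fintype ι] [Fintype κ] (σ : ε ≃ ε) (w : ε → ℝ)
  (v u : ι → ε → ℝ) (v' : κ → ε → ℝ), (∀ e, w e ≠ 0) →
  (∀ i, ∑ e, w e * v i e * u i (σ e) ≠ 0) →
  (∀ i j, i ≠ j → ∑ e, w e * v i e * u j (σ e) = 0) →
  (∀ j i, ∑ e, w e * v' j e * v i (σ e) = 0) →
  (∀ j i, ∑ e, w e * v' j e * u i (σ e) = 0) →
  (∀ j l, ∑ e, w e * v' j e * v' l (σ e) = 0) →
  Fintype.card ι + 2 * Module.finrank ℝ (Submodule.span ℝ (Set.range v')) ≤ Fintype.card ε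
def LA1_stm : Prop := LA1

/-- selecting independent columns -/
def LA2 : Prop := ∀ (ι τ : Type) [Fintype ι] [Fintype τ] (A : ι → τ → ℝ), LinearIndependent ℝ A →
  ∃ J : Finset τ, J.card = Fintype.card ι ∧
    LinearIndependent ℝ (fun (I : {x // x ∈ J}) (j : ι) => A j I.1)
def LA2_stm : Prop := LA2

/-- number of independent scaled combinations of columns is at most the rank -/
def LA3 : Prop := ∀ (ι ε τ : Type) [Fintype ι] [Fintype ε] [Fintype τ] (R : ι → ε → ℝ) (w : ι → ℝ)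
  (y : τ → ι → ℝ) (lam : τ → ε → ℝ), (∀ j, w j ≠ 0) → LinearIndependent ℝ y →
  (∀ t j, y t j = w j * ∑ e, lam t e * R j e) →
  Fintype.card τ ≤ Module.finrank ℝ (Submodule.span ℝ (Set.range R))
def LA3_stm : Prop := LA3

/-- the evaluation vector of `T` on the `a`-subsets of `D` -/
noncomputable def ev (a : ℕ) (D T : Finset ℝ) : {E // E ∈ powersetCard a D} → ℝ :=
  fun E => PP T E.1

/-- first rank inequality -/
def RankA : Prop := ∀ (a : ℕ) (ι κ : Type) [Fintype ι] [Fintype κ] (T U : ι → Finset ℝ)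
  (T' B : κ → Finset ℝ) (D : Finset ℝ), 1 ≤ a → D.card = 2 * a →
  (∀ i, (T i).card = a) → (∀ i, (U i).card = a) → (∀ j, (T' j).card = a) → Rel T U T' B →
  Fintype.card ι + 2 * Module.finrank ℝ (Submodule.span ℝ (Set.range (fun j => ev a D (T' j))))
    ≤ (2 * a).choose a
def RankA_stm : Prop := PZ → PS → Intp → LA1 → RankA

/-- independence of the evaluations on the `a + 1`-subsets of `G` -/
def Ind : Prop := ∀ (a : ℕ) (κ : Type) [Fintype κ] (T' B : κ → Finset ℝ) (G : Finset ℝ),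
  G.card = 2 * a + 1 → (∀ j, (T' j).card = a) → (∀ j, (B j).card = a + 1) → Cross T' B →
  LinearIndependent ℝ (fun (j : κ) (I : {I // I ∈ powersetCard (a + 1) G}) => PP (T' j) I.1)
def Ind_stm : Prop := PZ → Van → Ind

/-- the sets of `J` through a point `g` of `G` -/
def Thr : Prop := ∀ (a : ℕ) (κ : Type) [Fintype κ] (T' : κ → Finset ℝ) (D G : Finset ℝ) (g : ℝ)
  (J : Finset (Finset ℝ)), D.card = 2 * a → (∀ j, (T' j).card = a) → (∀ j, Disjoint (T' j) G) →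
  g ∈ G → J ⊆ powersetCard (a + 1) G →
  LinearIndependent ℝ (fun (I : {x // x ∈ J}) (j : κ) => PP (T' j) I.1) →
  (J.filter (fun I => g ∈ I)).card
    ≤ Module.finrank ℝ (Submodule.span ℝ (Set.range (fun j => ev a D (T' j))))
def Thr_stm : Prop := Intp → LA3 → Thr

/-- second rank inequality -/
def RankB : Prop := ∀ (a : ℕ) (κ : Type) [Fintype κ] (T' B : κ → Finset ℝ) (D : Finset ℝ),
  D.card = 2 * a → (∀ j, (T' j).card = a) → (∀ j, (B j).card = a + 1) → Cross T' B →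
  (a + 1) * Fintype.card κ
    ≤ (2 * a + 1) * Module.finrank ℝ (Submodule.span ℝ (Set.range (fun j => ev a D (T' j))))
def RankB_stm : Prop := Ind → Thr → LA2 → RankB

/-- mixed Bollobás inequality, sets of reals of exact sizes -/
def MixR : Prop := ∀ (a : ℕ) (ι κ : Type) [Fintype ι] [Fintype κ] (T U : ι → Finset ℝ)
  (T' B : κ → Finset ℝ), 1 ≤ a → (∀ i, (T i).card = a) → (∀ i, (U i).card = a) →
  (∀ j, (T' j).card = a) → (∀ j, (B j).card = a + 1) → Rel T U T' B → 0 < Fintype.card κ →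
  Fintype.card ι + Fintype.card κ < (2 * a).choose a
def MixR_stm : Prop := RankA → RankB → MixR

/-- padding -/
def Pad : Prop := ∀ (S S' : Finset ℝ) (a b : ℕ), S.card ≤ a → S'.card ≤ b → Disjoint S S' →
  ∃ P P' : Finset ℝ, S ⊆ P ∧ S' ⊆ P' ∧ P.card = a ∧ P'.card = b ∧ Disjoint P P'
def Pad_stm : Prop := Pad

/-- mixed Bollobás inequality -/
def Mix : Prop := ∀ (a : ℕ) (ι κ α : Type) [Fintype ι] [Fintype κ] (T U : ι → Finset α)
  (T' B : κ → Finset α), 1 ≤ a → (∀ i, (T i).card ≤ a) → (∀ i, (U i).card ≤ a) →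
  (∀ j, (T' j).card ≤ a) → (∀ j, (B j).card ≤ a + 1) → Rel T U T' B → 0 < Fintype.card κ →
  Fintype.card ι + Fintype.card κ < (2 * a).choose a
def Mix_stm : Prop := Pad → MixR → Mix

/-! ## Bollobás and uniqueness -/

/-- Bollobás, sizes at most `a` and `b` -/
def Bol : Prop := ∀ (a b : ℕ) (ι α : Type) [Fintype ι] (T U : ι → Finset α),
  (∀ i, (T i).card ≤ a) → (∀ i, (U i).card ≤ b) → Cross T U → Fintype.card ι ≤ (a + b).choose a
def Bol_stm : Prop := Bol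

/-- in the case of equality all sets have exactly `a` elements -/
def USize : Prop := ∀ (a : ℕ) (ι α : Type) [Fintype ι] (T U : ι → Finset α), 1 ≤ a →
  (∀ i, (T i).card ≤ a) → (∀ i, (U i).card ≤ a) → Cross T U →
  Fintype.card ι = (2 * a).choose a → ∀ i, (T i).card = a ∧ (U i).card = a
def USize_stm : Prop := USize

/-- sum identity for the deletion of one point -/
def USum : Prop := ∀ (ι α : Type) (G : Finset α) (I : Finset ι) (A B : ι → Finset α),
  (∀ i ∈ I, A i ⊆ G) → (∀ i ∈ I, B i ⊆ G) → (∀ i ∈ I, Disjoint (A i) (B i)) →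
  (∀ i ∈ I, (B i).Nonempty) →
  ∑ x ∈ G, ∑ i ∈ I.filter (fun i => x ∉ A i), wt (A i).card ((B i).erase x).card
    = (G.card : ℝ) * ∑ i ∈ I, wt (A i).card (B i).card
def USum_stm : Prop := USum

/-- deletion of one point preserves tightness -/
def UDel : Prop := ∀ (ι α : Type) (G : Finset α) (I : Finset ι) (A B : ι → Finset α),
  (∀ i ∈ I, A i ⊆ G) → (∀ i ∈ I, B i ⊆ G) → (∀ i ∈ I, Disjoint (A i) (B i)) →
  (∀ i ∈ I, ∀ j ∈ I, i ≠ j → ¬ Disjoint (A i) (B j)) →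
  (∀ i ∈ I, (B i).Nonempty) → ∑ i ∈ I, wt (A i).card (B i).card = 1 →
  ∀ x ∈ G, ∑ i ∈ I.filter (fun i => x ∉ A i), wt (A i).card ((B i).erase x).card = 1
def UDel_stm : Prop := USum → UDel

/-- deletion of several points -/
def UDels : Prop := ∀ (ι α : Type) (G D : Finset α) (I : Finset ι) (A B : ι → Finset α) (i0 : ι),
  (∀ i ∈ I, A i ⊆ G) → (∀ i ∈ I, B i ⊆ G) → (∀ i ∈ I, Disjoint (A i) (B i)) →
  (∀ i ∈ I, ∀ j ∈ I, i ≠ j → ¬ Disjoint (A i) (B j)) →
  ∑ i ∈ I, wt (A i).card (B i).card = 1 → D ⊆ G → i0 ∈ I → Disjoint (A i0) D → ¬ B i0 ⊆ D →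
  ∑ i ∈ I.filter (fun i => Disjoint (A i) D), wt (A i).card (B i \ D).card = 1
def UDels_stm : Prop := UDel → UDels

/-- one half of the exchange property -/
def UExH : Prop := ∀ (a : ℕ) (ι α : Type) [Fintype ι] (A B : ι → Finset α), 1 ≤ a →
  (∀ i, (A i).card = a) → (∀ i, (B i).card = a) → Cross A B →
  Fintype.card ι = (2 * a).choose a → ∀ (i0 : ι), ∀ x ∈ A i0, ∀ y ∈ B i0,
  ∃ j, A j = insert y ((A i0).erase x)
def UExH_stm : Prop := UDels → UExH

/-- the exchange property -/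
def UEx : Prop := ∀ (a : ℕ) (ι α : Type) [Fintype ι] (A B : ι → Finset α), 1 ≤ a →
  (∀ i, (A i).card = a) → (∀ i, (B i).card = a) → Cross A B →
  Fintype.card ι = (2 * a).choose a → ∀ (i0 : ι), ∀ x ∈ A i0, ∀ y ∈ B i0,
  ∃ j, A j = insert y ((A i0).erase x) ∧ B j = insert x ((B i0).erase y)
def UEx_stm : Prop := UExH → UEx

/-- connectivity of the Johnson graph -/
def UCon : Prop := ∀ (a : ℕ) (α : Type) (Y S : Finset α) (P : Finset α → Prop), Y.card = 2 * a →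
  S ⊆ Y → S.card = a → P S →
  (∀ E : Finset α, E ⊆ Y → E.card = a → P E → ∀ x ∈ E, ∀ y ∈ Y \ E, P (insert y (E.erase x))) →
  ∀ E : Finset α, E ⊆ Y → E.card = a → P E
def UCon_stm : Prop := UCon

/-- uniqueness in the theorem of Bollobás -/
def Uni : Prop := ∀ (a : ℕ) (ι α : Type) [Fintype ι] (T U : ι → Finset α), 1 ≤ a →
  (∀ i, (T i).card ≤ a) → (∀ i, (U i).card ≤ a) → Cross T U →
  Fintype.card ι = (2 * a).choose a →
  ∃ Y : Finset α, Y.card = 2 * a ∧ (∀ i, U i ∈ powersetCard a Y) ∧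
    ∀ E ∈ powersetCard a Y, ∃ i, U i = E
def Uni_stm : Prop := USize → UEx → UCon → Uni

/-! ## Combinatorial part -/

/-- minimal covers -/
def MinC : Prop := ∀ (β γ : Type) (r : β → γ → Prop) (A : Finset β) (U : Finset γ),
  (∀ x ∈ A, ∃ y ∈ U, r x y) →
  ∃ G ⊆ U, (∀ x ∈ A, ∃ y ∈ G, r x y) ∧
    ∀ y ∈ G, ∃ x ∈ A, r x y ∧ ∀ y' ∈ G, y' ≠ y → ¬ r x y'
def MinC_stm : Prop := MinC

/-- crude bound -/
def Crude : Prop := ∀ (k s : ℕ) (α : Type) (F : Finset (Finset α)), AInt k s F →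
  F.card ≤ s * (2 * k).choose k
def Crude_stm : Prop := MinC → Bol → Crude

/-- the set of heavy points -/
def Heavy : Prop := ∀ (k s N : ℕ) (α : Type) (F : Finset (Finset α)), 1 ≤ s → AInt k s F →
  ∃ H : Finset α, H.card ≤ N * k * (2 * k).choose k ∧
    ∀ x, x ∉ H → N * (F.filter (fun A => x ∈ A)).card ≤ s
def Heavy_stm : Prop := Crude → Heavy

/-- an edge is disjoint on `H` from few edges -/
def Near : Prop := ∀ (k s N : ℕ) (α : Type) (F : Finset (Finset α)) (H : Finset α), AInt k s F →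
  (∀ x, x ∉ H → N * (F.filter (fun A => x ∈ A)).card ≤ s) → ∀ B ∈ F,
  N * (F.filter (fun A => Disjoint (A ∩ H) (B ∩ H))).card ≤ (N + k) * s
def Near_stm : Prop := Near

/-- structure: few edges cover all the ordinary ones, or there is a set `Y` -/
def Str : Prop := ∀ (a s : ℕ) (α : Type) (F : Finset (Finset α)) (H : Finset α), 1 ≤ a →
  AInt (a + 1) s F →
  (∃ G ⊆ F, G.card < (2 * a).choose a ∧ ∀ A ∈ Ord H F, ∃ B ∈ G, Disjoint (A ∩ H) (B ∩ H)) ∨
  ∃ Y ⊆ H, Y.card = 2 * a ∧ powersetCard a Y ⊆ Tra H F ∧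
    ∀ A ∈ Ord H F, ∃ U ∈ powersetCard a Y, Disjoint (A ∩ H) U
def Str_stm : Prop := MinC → Bol → Uni → Mix → Str

/-- covering by few edges gives an upper bound -/
def CovB : Prop := ∀ (k s N c : ℕ) (α : Type) (F : Finset (Finset α)) (H : Finset α)
  (G : Finset (Finset α)), G ⊆ F → G.card ≤ c →
  (∀ A ∈ Ord H F, ∃ B ∈ G, Disjoint (A ∩ H) (B ∩ H)) →
  (∀ B ∈ F, N * (F.filter (fun A => Disjoint (A ∩ H) (B ∩ H))).card ≤ (N + k) * s) →
  N * F.card ≤ N * 2 ^ H.card + c * ((N + k) * s)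
def CovB_stm : Prop := CovB

/-- lower bound for the number of ordinary edges with a given trace -/
def NLow : Prop := ∀ (a s N : ℕ) (α : Type) (F : Finset (Finset α)) (H Y : Finset α), 1 ≤ a →
  AInt (a + 1) s F →
  (∀ B ∈ F, N * (F.filter (fun A => Disjoint (A ∩ H) (B ∩ H))).card ≤ (N + (a + 1)) * s) →
  Y ⊆ H → Y.card = 2 * a → powersetCard a Y ⊆ Tra H F →
  (∀ A ∈ Ord H F, ∃ U ∈ powersetCard a Y, Disjoint (A ∩ H) U) →
  ∀ T ∈ powersetCard a Y,
    N * F.card ≤ N * 2 ^ H.card + ((2 * a).choose a - 1) * ((N + (a + 1)) * s)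
      + N * ((Ord H F).filter (fun A => A ∩ H = T)).card
def NLow_stm : Prop := NLow

/-- all edges meet `Y` in at least `a` points -/
def Meet : Prop := ∀ (a s : ℕ) (α : Type) (F : Finset (Finset α)) (H Y : Finset α), 1 ≤ a →
  AInt (a + 1) s F → Y ⊆ H → Y.card = 2 * a →
  (∀ T ∈ powersetCard a Y,
    s + 2 * (a + 1) < 2 * ((Ord H F).filter (fun A => A ∩ H = T)).card) →
  ∀ B ∈ F, a ≤ (B ∩ Y).card
def Meet_stm : Prop := Meet

/-- all edges meet `Y` in exactly `a` points -/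
def MeetE : Prop := ∀ (a s : ℕ) (α : Type) (F : Finset (Finset α)) (Y : Finset α), 1 ≤ a →
  AInt (a + 1) s F → Y.card = 2 * a → (∀ B ∈ F, a ≤ (B ∩ Y).card) →
  ∀ B ∈ F, (B ∩ Y).card = a
def MeetE_stm : Prop := MeetE

/-- at most `s + 1` edges with the same trace on `Y` -/
def TrB : Prop := ∀ (a s : ℕ) (α : Type) (F : Finset (Finset α)) (Y : Finset α), 1 ≤ a →
  AInt (a + 1) s F → Y.card = 2 * a → (∀ B ∈ F, (B ∩ Y).card = a) →
  (∀ T ∈ powersetCard a Y, ∃ A ∈ F, A ∩ Y = T) →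
  ∀ T ∈ powersetCard a Y, (F.filter (fun B => B ∩ Y = T)).card ≤ s + 1
def TrB_stm : Prop := TrB

/-- conclusion from the traces on `Y` -/
def CntY : Prop := ∀ (a s : ℕ) (α : Type) (F : Finset (Finset α)) (Y : Finset α),
  Y.card = 2 * a → (∀ B ∈ F, (B ∩ Y).card = a) →
  (∀ T ∈ powersetCard a Y, (F.filter (fun B => B ∩ Y = T)).card ≤ s + 1) →
  F.card ≤ (s + 1) * (2 * a).choose a
def CntY_stm : Prop := CntY

/-- the case with the set `Y` -/
def CaseY : Prop := ∀ (a s : ℕ) (α : Type) (F : Finset (Finset α)) (H Y : Finset α), 1 ≤ a →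
  AInt (a + 1) s F → Y ⊆ H → Y.card = 2 * a →
  (∀ T ∈ powersetCard a Y,
    s + 2 * (a + 1) < 2 * ((Ord H F).filter (fun A => A ∩ H = T)).card) →
  F.card ≤ (s + 1) * (2 * a).choose a
def CaseY_stm : Prop := Meet → MeetE → TrB → CntY → CaseY

/-- arithmetic for the case of few edges -/
def Num1 : Prop := ∀ (a s h f N : ℕ), 1 ≤ a → N = 4 * (a + 1) * (2 * a).choose a →
  4 * 2 ^ h + 4 * (a + 1) < s →
  N * f ≤ N * 2 ^ h + ((2 * a).choose a - 1) * ((N + (a + 1)) * s) →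
  f ≤ (s + 1) * (2 * a).choose a
def Num1_stm : Prop := Num1

/-- arithmetic for the case with `Y` -/
def Num2 : Prop := ∀ (a s h f N n : ℕ), 1 ≤ a → N = 4 * (a + 1) * (2 * a).choose a →
  4 * 2 ^ h + 4 * (a + 1) < s →
  N * f ≤ N * 2 ^ h + ((2 * a).choose a - 1) * ((N + (a + 1)) * s) + N * n →
  (s + 1) * (2 * a).choose a < f → s + 2 * (a + 1) < 2 * n
def Num2_stm : Prop := Num2

/-- main theorem -/
def Main : Prop := ∀ a : ℕ, 1 ≤ a → ∃ s1 : ℕ, ∀ s : ℕ, s1 < s → ∀ (α : Type)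
  (F : Finset (Finset α)), AInt (a + 1) s F → F.card ≤ (s + 1) * (2 * a).choose a
def Main_stm : Prop := Heavy → Near → Str → CovB → NLow → CaseY → Num1 → Num2 → Main

end R128.AI
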