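import Pool.Agent.R128.AI.Defs
import Pool.Agent.R128.AI.Stm

set_option autoImplicit false

open Finset

namespace R128.AI

theorem LA3_proof : LA3_stm := by
  intro ι ε τ _ _ _ R w y lam hw hy hyl
  let A : Matrix ι ε ℝ := Matrix.of R
  have hcomp : y = (LinearMap.pi (fun j => w j • (LinearMap.proj j : (ι → ℝ) →ₗ[ℝ] ℝ))) ∘
      (fun t => A.mulVec (lam t)) := by
    funext t j
    rw [hyl t j]
    simp only [Function.comp, LinearMap.pi_apply, LinearMap.smul_apply, LinearMap.proj_apply,
      smul_eq_mul, Matrix.mulVec, dotProduct, A, Matrix.of_apply]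
    congr 1
    exact Finset.sum_congr rfl fun e _ => mul_comm _ _
  have hli : LinearIndependent ℝ (fun t => A.mulVec (lam t)) := by
    rw [hcomp] at hy
    exact LinearIndependent.of_comp _ hy
  have h1 : Fintype.card τ = Module.finrank ℝ
      (Submodule.span ℝ (Set.range (fun t => A.mulVec (lam t)))) :=
    (finrank_span_eq_card hli).symm
  have h2 : Submodule.span ℝ (Set.range (fun t => A.mulVec (lam t))) ≤
      LinearMap.range A.mulVecLin := by
    rw [Submodule.span_le]
    rintro _ ⟨t, rfl⟩
    exact ⟨lam t, rfl⟩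
  have h3 := Submodule.finrank_mono h2
  have h4 : Module.finrank ℝ (LinearMap.range A.mulVecLin) =
      Module.finrank ℝ (Submodule.span ℝ (Set.range R)) := by
    have := Matrix.rank_eq_finrank_span_row A
    exact this
  rw [h1, ← h4]
  exact h3

end R128.AI
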