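import Pool.Agent.R128.AI.Stm

set_option autoImplicit false

open Finset Classical

namespace R128.AI

theorem Main_proof : Main_stm := by
  intro hHeavy hNear hStr hCovB hNLow hCaseY hNum1 hNum2 a ha
  obtain ⟨N, hN⟩ : ∃ N : ℕ, N = 4 * (a + 1) * (2 * a).choose a := ⟨_, rfl⟩
  refine ⟨4 * 2 ^ (N * (a + 1) * (2 * (a + 1)).choose (a + 1)) + 4 * (a + 1), ?_⟩
  intro s hs α F hF
  have hs1 : 1 ≤ s := by omega
  obtain ⟨H, hHc, hH⟩ := hHeavy (a + 1) s N α F hs1 hF
  have hnear := hNear (a + 1) s N α F H hF hH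
  have hpow : 2 ^ H.card ≤ 2 ^ (N * (a + 1) * (2 * (a + 1)).choose (a + 1)) :=
    Nat.pow_le_pow_right (by norm_num) hHc
  have hs2 : 4 * 2 ^ H.card + 4 * (a + 1) < s := by omega
  rcases hStr a s α F H ha hF with ⟨G, hG, hGc, hcov⟩ | ⟨Y, hYH, hYc, hYT, hcov⟩
  · have h1 := hCovB (a + 1) s N ((2 * a).choose a - 1) α F H G hG (by omega) hcov hnear
    exact hNum1 a s H.card F.card N ha hN hs2 h1
  · by_contra hcon
    push Not at hcon
    have hbig : ∀ T ∈ powersetCard a Y,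
        s + 2 * (a + 1) < 2 * ((Ord H F).filter (fun A => A ∩ H = T)).card := by
      intro T hT
      exact hNum2 a s H.card F.card N _ ha hN hs2
        (hNLow a s N α F H Y ha hF hnear hYH hYc hYT hcov T hT) hcon
    have h2 := hCaseY a s α F H Y ha hF hYH hYc hbig
    omega

end R128.AI
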