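import Pool.Agent.R128.AI.Stm

/-!
AI-Meet (helper964)
-/

set_option autoImplicit false

open Finset Classical

namespace R128.AI

theorem Meet.aux {a s : ℕ} {α : Type} {F : Finset (Finset α)} {H T B : Finset α}
    (hF : AInt (a + 1) s F) (hTH : T ⊆ H) (hT : T.card = a) (hTB : Disjoint T B) (hB : B ∈ F) :
    ((Ord H F).filter (fun A => A ∩ H = T)).card ≤
      (((Ord H F).filter (fun A => A ∩ H = T)).filter (fun A => Disjoint B A)).card + (a + 1) := by
  set S := (Ord H F).filter (fun A => A ∩ H = T) with hS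
  have h1 : (S.filter (fun A => ¬ Disjoint B A)) ⊆ B.image (fun x => insert x T) := by
    intro A hA
    rw [mem_filter, hS, mem_filter, Ord, mem_filter] at hA
    obtain ⟨⟨⟨hAF, _⟩, hAT⟩, hnd⟩ := hA
    rw [Finset.not_disjoint_iff] at hnd
    obtain ⟨x, hxB, hxA⟩ := hnd
    have hxH : x ∉ H := by
      intro hxH
      have : x ∈ T := by
        rw [← hAT]
        exact mem_inter.2 ⟨hxA, hxH⟩
      exact (Finset.disjoint_left.1 hTB this) hxB
    have hxT : x ∉ T := fun h => hxH (hTH h)
    rw [mem_image]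
    refine ⟨x, hxB, ?_⟩
    apply Finset.eq_of_subset_of_card_le
    · intro z hz
      rw [mem_insert] at hz
      rcases hz with rfl | hz
      · exact hxA
      · rw [← hAT] at hz
        exact (mem_inter.1 hz).1
    · rw [card_insert_of_notMem hxT, hT, hF.1 A hAF]
  have h2 : (S.filter (fun A => ¬ Disjoint B A)).card ≤ a + 1 := by
    refine (card_le_card h1).trans (card_image_le.trans ?_)
    rw [hF.1 B hB]
  have h3 : S = S.filter (fun A => Disjoint B A) ∪ S.filter (fun A => ¬ Disjoint B A) := by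
    ext A
    simp only [mem_union, mem_filter]
    tauto
  calc S.card = (S.filter (fun A => Disjoint B A) ∪ S.filter (fun A => ¬ Disjoint B A)).card := by
        rw [← h3]
    _ ≤ (S.filter (fun A => Disjoint B A)).card + (S.filter (fun A => ¬ Disjoint B A)).card :=
        card_union_le _ _
    _ ≤ _ := by omega

theorem Meet_proof : Meet_stm := by
  intro a s α F H Y ha hF hYH hY hbig B hB
  by_contra hlt
  push Not at hlt
  have hc1 : a + 1 ≤ (Y \ B).card := by
    have h1 : (Y \ B).card + (B ∩ Y).card = Y.card := by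
      rw [inter_comm]
      exact card_sdiff_add_card_inter Y B
    omega
  obtain ⟨Z, hZs, hZ⟩ := exists_subset_card_eq hc1
  have hZ2 : 1 < Z.card := by omega
  obtain ⟨z₁, hz₁, z₂, hz₂, hne⟩ := one_lt_card.1 hZ2
  have hT : ∀ z ∈ Z, (Z.erase z) ∈ powersetCard a Y ∧ Disjoint (Z.erase z) B ∧ Z.erase z ⊆ H := by
    intro z hz
    have hs1 : Z.erase z ⊆ Y \ B := (erase_subset _ _).trans hZs
    refine ⟨?_, ?_, ?_⟩
    · rw [mem_powersetCard]
      refine ⟨hs1.trans sdiff_subset, ?_⟩
      rw [card_erase_of_mem hz, hZ]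
      rfl
    · exact Finset.disjoint_of_subset_left hs1 sdiff_disjoint
    · exact (hs1.trans sdiff_subset).trans hYH
  obtain ⟨hm1, hd1, hs1⟩ := hT z₁ hz₁
  obtain ⟨hm2, hd2, hs2⟩ := hT z₂ hz₂
  have hb1 := hbig _ hm1
  have hb2 := hbig _ hm2
  have ha1 := Meet.aux hF hs1 (mem_powersetCard.1 hm1).2 hd1 hB
  have ha2 := Meet.aux hF hs2 (mem_powersetCard.1 hm2).2 hd2 hB
  set D₁ := ((Ord H F).filter (fun A => A ∩ H = Z.erase z₁)).filter (fun A => Disjoint B A)
    with hD1
  set D₂ := ((Ord H F).filter (fun A => A ∩ H = Z.erase z₂)).filter (fun A => Disjoint B A)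
    with hD2
  have hTne : Z.erase z₁ ≠ Z.erase z₂ := by
    intro h
    have h3 : z₂ ∈ Z.erase z₁ := mem_erase.2 ⟨fun h => hne h.symm, hz₂⟩
    rw [h] at h3
    exact (notMem_erase z₂ Z) h3
  have hdis : Disjoint D₁ D₂ := by
    rw [Finset.disjoint_left]
    intro A h1 h2
    rw [hD1, mem_filter, mem_filter] at h1
    rw [hD2, mem_filter, mem_filter] at h2
    exact hTne (h1.1.2.symm.trans h2.1.2)
  have hsub : D₁ ∪ D₂ ⊆ F.filter (fun A => Disjoint B A) := by
    intro A hA
    rw [mem_union, hD1, hD2, mem_filter, mem_filter, mem_filter, mem_filter, Ord, mem_filter] at hA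
    rw [mem_filter]
    rcases hA with h | h
    · exact ⟨h.1.1.1, h.2⟩
    · exact ⟨h.1.1.1, h.2⟩
  have h5 : D₁.card + D₂.card ≤ s := by
    rw [← card_union_of_disjoint hdis]
    refine (card_le_card hsub).trans ?_
    have := (hF.2 B hB).2
    convert this
  omega

end R128.AI
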