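import Pool.Agent.R128.AI.Stm

set_option autoImplicit false

open Finset Classical

namespace R128.AI

theorem MeetE_proof : MeetE_stm := by
  intro a s α F Y ha hF hY hmeet B hB
  have h1 := hmeet B hB
  obtain ⟨A, hA⟩ := card_pos.1 (lt_of_lt_of_le Nat.zero_lt_one (hF.2 B hB).1)
  rw [mem_filter] at hA
  have h2 := hmeet A hA.1
  have hdis : Disjoint (B ∩ Y) (A ∩ Y) :=
    Disjoint.mono inter_subset_left inter_subset_left hA.2
  have h3 : (B ∩ Y).card + (A ∩ Y).card ≤ Y.card := by
    rw [← card_union_of_disjoint hdis]
    exact card_le_card (union_subset inter_subset_right inter_subset_right)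
  omega

end R128.AI
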