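import Pool.Agent.R128.AI.Stm

set_option autoImplicit false

open Finset Classical

namespace R128.AI

theorem MinC_proof : MinC_stm := by
  intro β γ r A U hcov
  have hex : (U.powerset.filter (fun G => ∀ x ∈ A, ∃ y ∈ G, r x y)).Nonempty :=
    ⟨U, by simp only [mem_filter, mem_powerset]; exact ⟨Finset.Subset.refl U, hcov⟩⟩
  obtain ⟨G, hG, hmin⟩ := Finset.exists_min_image _ Finset.card hex
  simp only [mem_filter, mem_powerset] at hG
  refine ⟨G, hG.1, hG.2, ?_⟩
  intro y hy
  by_contra hcon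
  push Not at hcon
  have h1 : G.erase y ∈ U.powerset.filter (fun G => ∀ x ∈ A, ∃ y ∈ G, r x y) := by
    simp only [mem_filter, mem_powerset]
    refine ⟨(erase_subset _ _).trans hG.1, ?_⟩
    intro x hx
    obtain ⟨z, hz, hr⟩ := hG.2 x hx
    by_cases hzy : z = y
    · subst hzy
      obtain ⟨y', hy', hne, hr'⟩ := hcon x hx hr
      exact ⟨y', mem_erase.2 ⟨hne, hy'⟩, hr'⟩
    · exact ⟨z, mem_erase.2 ⟨hzy, hz⟩, hr⟩
  have h2 := hmin _ h1
  have h3 := card_erase_lt_of_mem hy
  omega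

end R128.AI
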