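import Mathlib
import Pool.Agent.R128.AI.Stm

set_option autoImplicit false

open Finset

namespace R128.AI

theorem Mix.nd {α : Type} {X Y : Finset α} {P P' : Finset ℝ} (f : α → ℝ)
    (h : ¬ Disjoint X Y) (hP : X.image f ⊆ P) (hP' : Y.image f ⊆ P') : ¬ Disjoint P P' := by
  intro hd
  refine h (Finset.disjoint_left.2 fun x hx hy => ?_)
  exact Finset.disjoint_left.1 hd (hP (Finset.mem_image_of_mem f hx))
    (hP' (Finset.mem_image_of_mem f hy))

theorem Mix.dj {α : Type} {X Y G : Finset α} (f : α → ℝ) (hf : Set.InjOn f G) (hX : X ⊆ G)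
    (hY : Y ⊆ G) (h : Disjoint X Y) : Disjoint (X.image f) (Y.image f) := by
  refine Finset.disjoint_left.2 fun z hz hz' => ?_
  obtain ⟨x, hx, rfl⟩ := Finset.mem_image.1 hz
  obtain ⟨y, hy, hxy⟩ := Finset.mem_image.1 hz'
  have h1 : y = x := hf (hY hy) (hX hx) hxy
  subst h1
  exact Finset.disjoint_left.1 h hx hy

theorem Mix_proof : Mix_stm := by
  classical
  intro hPad hMixR a ι κ α _ _ T U T' B ha hT hU hT' hB hR hκ
  obtain ⟨hc1, hc2, h3, h4, h5⟩ := hR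
  set G : Finset α := (univ.biUnion T ∪ univ.biUnion U) ∪ (univ.biUnion T' ∪ univ.biUnion B)
    with hG
  obtain ⟨f0, hf0⟩ := Set.countable_iff_exists_injOn.1 (G.countable_toSet)
  set f : α → ℝ := fun x => (f0 x : ℝ) with hfd
  have hf : Set.InjOn f G := by
    intro x hx y hy hxy
    exact hf0 hx hy (Nat.cast_injective (R := ℝ) hxy)
  have hTG : ∀ i, T i ⊆ G := fun i x hx => by
    simp only [hG, mem_union, mem_biUnion, mem_univ, true_and]
    exact Or.inl (Or.inl ⟨i, hx⟩)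
  have hUG : ∀ i, U i ⊆ G := fun i x hx => by
    simp only [hG, mem_union, mem_biUnion, mem_univ, true_and]
    exact Or.inl (Or.inr ⟨i, hx⟩)
  have hT'G : ∀ j, T' j ⊆ G := fun j x hx => by
    simp only [hG, mem_union, mem_biUnion, mem_univ, true_and]
    exact Or.inr (Or.inl ⟨j, hx⟩)
  have hBG : ∀ j, B j ⊆ G := fun j x hx => by
    simp only [hG, mem_union, mem_biUnion, mem_univ, true_and]
    exact Or.inr (Or.inr ⟨j, hx⟩)
  have h6 : ∀ i, ∃ P P' : Finset ℝ, (T i).image f ⊆ P ∧ (U i).image f ⊆ P' ∧ P.card = a ∧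
      P'.card = a ∧ Disjoint P P' := fun i =>
    hPad _ _ a a (card_image_le.trans (hT i)) (card_image_le.trans (hU i))
      (Mix.dj f hf (hTG i) (hUG i) (hc1.1 i))
  have h7 : ∀ j, ∃ P P' : Finset ℝ, (T' j).image f ⊆ P ∧ (B j).image f ⊆ P' ∧ P.card = a ∧
      P'.card = a + 1 ∧ Disjoint P P' := fun j =>
    hPad _ _ a (a + 1) (card_image_le.trans (hT' j)) (card_image_le.trans (hB j))
      (Mix.dj f hf (hT'G j) (hBG j) (hc2.1 j))
  choose P P' hP1 hP2 hP3 hP4 hP5 using h6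
  choose Q Q' hQ1 hQ2 hQ3 hQ4 hQ5 using h7
  refine hMixR a ι κ P P' Q Q' ha hP3 hP4 hQ3 hQ4 ⟨⟨hP5, ?_⟩, ⟨hQ5, ?_⟩, ?_, ?_, ?_⟩ hκ
  · intro i j hij
    exact Mix.nd f (hc1.2 i j hij) (hP1 i) (hP2 j)
  · intro i j hij
    exact Mix.nd f (hc2.2 i j hij) (hQ1 i) (hQ2 j)
  · intro j i
    exact Mix.nd f (h3 j i) (hQ1 j) (hP1 i)
  · intro j i
    exact Mix.nd f (h4 j i) (hQ1 j) (hP2 i)
  · intro j l
    exact Mix.nd f (h5 j l) (hQ1 j) (hQ1 l)

end R128.AI
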