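import Pool.Agent.R128.AI.Stm

set_option autoImplicit false

open Finset Classical

namespace R128.AI

theorem MixR_proof : MixR_stm := by
  intro rankA rankB a ι κ _ _ T U T' B ha hT hU hT' hB hrel hpos
  obtain ⟨D, hD⟩ : ∃ D : Finset ℝ, D.card = 2 * a := by
    obtain ⟨W, hW, hWc⟩ := Set.Infinite.exists_subset_card_eq
      (s := (Set.univ : Set ℝ)) Set.infinite_univ (2 * a)
    exact ⟨W, hWc⟩
  have h1 := rankA a ι κ T U T' B D ha hD hT hU hT' hrel
  have h2 := rankB a κ T' B D hD hT' hB hrel.2.1
  set ρ := Module.finrank ℝ (Submodule.span ℝ (Set.range (fun j => ev a D (T' j)))) with hρ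
  have h3 : 0 < ρ := by
    by_contra h
    have h0 : ρ = 0 := by omega
    rw [h0] at h2
    have : 0 < (a + 1) * Fintype.card κ := by positivity
    omega
  have h4 : Fintype.card κ < 2 * ρ := by
    by_contra h
    push Not at h
    have h5 : (a + 1) * (2 * ρ) ≤ (a + 1) * Fintype.card κ := Nat.mul_le_mul_left _ h
    nlinarith
  omega

end R128.AI
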