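import Pool.Agent.R128.AI.Stm

/-!
AI-NLow (helper964)
-/

set_option autoImplicit false

open Finset Classical

namespace R128.AI

theorem NLow.other {a s : ℕ} {α : Type} {F : Finset (Finset α)} {H Y T A : Finset α}
    (hF : AInt (a + 1) s F) (hYH : Y ⊆ H) (hY : Y.card = 2 * a) (hT : T ∈ powersetCard a Y)
    (hA : A ∈ Ord H F) (hex : ∃ U ∈ powersetCard a Y, Disjoint (A ∩ H) U) (hAT : A ∩ H ≠ T) :
    ∃ U ∈ (powersetCard a Y).erase (Y \ T), Disjoint (A ∩ H) U := by
  obtain ⟨U, hU, hUd⟩ := hex
  by_cases hUe : U = Y \ T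
  · subst hUe
    rw [mem_powersetCard] at hT
    have hYT : (Y \ T).card = a := by
      rw [card_sdiff_of_subset hT.1, hY, hT.2]
      omega
    have hAm := hA
    rw [Ord, mem_filter] at hAm
    have hsubT : A ∩ Y ⊆ T := by
      intro x hx
      rw [mem_inter] at hx
      by_contra hxT
      exact (Finset.disjoint_left.1 hUd (mem_inter.2 ⟨hx.1, hYH hx.2⟩))
        (mem_sdiff.2 ⟨hx.2, hxT⟩)
    have hAH : (A ∩ H).card ≤ a := by
      have h1 : A ∩ H ⊂ A := by
        refine ssubset_of_subset_of_ne inter_subset_left ?_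
        intro h
        exact hAm.2 (inter_eq_left.1 h)
      have h2 := card_lt_card h1
      rw [hF.1 A hAm.1] at h2
      omega
    have hlt : (A ∩ Y).card < a := by
      by_contra hge
      push Not at hge
      have h3 : A ∩ Y = T := eq_of_subset_of_card_le hsubT (by rw [hT.2]; exact hge)
      have h4 : T ⊆ A ∩ H := by
        rw [← h3]
        exact inter_subset_inter_left hYH
      have h5 : T = A ∩ H := eq_of_subset_of_card_le h4 (by rw [hT.2]; exact hAH)
      exact hAT h5.symm
    have hc : a < (Y \ A).card := by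
      have h1 : (Y \ A).card + (A ∩ Y).card = Y.card := by
        rw [inter_comm]
        exact card_sdiff_add_card_inter Y A
      omega
    obtain ⟨z, hz, hz'⟩ := exists_mem_notMem_of_card_lt_card (s := Y \ T) (t := Y \ A)
      (by rw [hYT]; exact hc)
    have ha1 : 1 ≤ a := by
      have := Nat.lt_of_le_of_lt (Nat.zero_le _) hlt
      omega
    obtain ⟨U', hU1, hU2, hU3⟩ := exists_subsuperset_card_eq (s := {z}) (t := Y \ A) (n := a)
      (singleton_subset_iff.2 hz) (by rw [card_singleton]; exact ha1) hc.le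
    refine ⟨U', ?_, ?_⟩
    · rw [mem_erase, mem_powersetCard]
      refine ⟨?_, hU2.trans sdiff_subset, hU3⟩
      rintro rfl
      exact hz' (hU1 (mem_singleton_self z))
    · rw [Finset.disjoint_left]
      intro x hx hxU
      exact (mem_sdiff.1 (hU2 hxU)).2 (mem_inter.1 hx).1
  · exact ⟨U, mem_erase.2 ⟨hUe, hU⟩, hUd⟩

theorem NLow_proof : NLow_stm := by
  intro a s N α F H Y ha hF hnear hYH hY hTra hex T hT
  have hYT : Y \ T ∈ powersetCard a Y := by
    have hT' := mem_powersetCard.1 hT
    rw [mem_powersetCard]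
    refine ⟨sdiff_subset, ?_⟩
    rw [card_sdiff_of_subset hT'.1, hY, hT'.2]
    omega
  have h1 : (Spc H F).card ≤ 2 ^ H.card := by
    rw [← card_powerset]
    apply card_le_card
    intro A hA
    rw [Spc, mem_filter] at hA
    exact mem_powerset.2 hA.2
  have h2 : F ⊆ Spc H F ∪ ((Ord H F).filter (fun A => A ∩ H = T) ∪
      ((powersetCard a Y).erase (Y \ T)).biUnion
        (fun U => F.filter (fun A => Disjoint (A ∩ H) U))) := by
    intro A hA
    by_cases hAH : A ⊆ H
    · exact mem_union_left _ (by rw [Spc, mem_filter]; exact ⟨hA, hAH⟩)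
    · have hO : A ∈ Ord H F := by
        rw [Ord, mem_filter]
        exact ⟨hA, hAH⟩
      refine mem_union_right _ ?_
      by_cases hAT : A ∩ H = T
      · exact mem_union_left _ (mem_filter.2 ⟨hO, hAT⟩)
      · refine mem_union_right _ ?_
        obtain ⟨U, hU, hUd⟩ := NLow.other hF hYH hY hT hO (hex A hO) hAT
        exact mem_biUnion.2 ⟨U, hU, mem_filter.2 ⟨hA, hUd⟩⟩
  have h3 : ∀ U ∈ (powersetCard a Y).erase (Y \ T),
      N * (F.filter (fun A => Disjoint (A ∩ H) U)).card ≤ (N + (a + 1)) * s := by
    intro U hU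
    have hU' := hTra (mem_of_mem_erase hU)
    rw [Tra, mem_image] at hU'
    obtain ⟨B, hB, rfl⟩ := hU'
    rw [Ord, mem_filter] at hB
    exact hnear B hB.1
  have h4 : N * (((powersetCard a Y).erase (Y \ T)).biUnion
        (fun U => F.filter (fun A => Disjoint (A ∩ H) U))).card ≤
      ((2 * a).choose a - 1) * ((N + (a + 1)) * s) := by
    calc N * (((powersetCard a Y).erase (Y \ T)).biUnion
        (fun U => F.filter (fun A => Disjoint (A ∩ H) U))).card ≤
        N * ∑ U ∈ (powersetCard a Y).erase (Y \ T),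
          (F.filter (fun A => Disjoint (A ∩ H) U)).card :=
          Nat.mul_le_mul_left _ card_biUnion_le
      _ = ∑ U ∈ (powersetCard a Y).erase (Y \ T),
          N * (F.filter (fun A => Disjoint (A ∩ H) U)).card := by rw [mul_sum]
      _ ≤ ∑ _U ∈ (powersetCard a Y).erase (Y \ T), (N + (a + 1)) * s := sum_le_sum h3
      _ = ((2 * a).choose a - 1) * ((N + (a + 1)) * s) := by
          rw [sum_const, smul_eq_mul, card_erase_of_mem hYT, card_powersetCard, hY]
  have h5 : F.card ≤ (Spc H F).card + (((Ord H F).filter (fun A => A ∩ H = T)).card +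
      (((powersetCard a Y).erase (Y \ T)).biUnion
        (fun U => F.filter (fun A => Disjoint (A ∩ H) U))).card) :=
    (card_le_card h2).trans ((card_union_le _ _).trans (Nat.add_le_add_left (card_union_le _ _) _))
  calc N * F.card ≤ N * ((Spc H F).card + (((Ord H F).filter (fun A => A ∩ H = T)).card +
      (((powersetCard a Y).erase (Y \ T)).biUnion
        (fun U => F.filter (fun A => Disjoint (A ∩ H) U))).card)) := Nat.mul_le_mul_left _ h5
    _ = N * (Spc H F).card + N * (((powersetCard a Y).erase (Y \ T)).biUnion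
        (fun U => F.filter (fun A => Disjoint (A ∩ H) U))).card +
        N * ((Ord H F).filter (fun A => A ∩ H = T)).card := by ring
    _ ≤ _ := by
      have h6 := Nat.mul_le_mul_left N h1
      omega

end R128.AI
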