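import Pool.Agent.R128.AI.Stm

set_option autoImplicit false

open Finset Classical

namespace R128.AI

theorem Near_proof : Near_stm := by
  unfold Near_stm Near
  intro k s N α F H hF hH B hB
  have hsub : F.filter (fun A => Disjoint (A ∩ H) (B ∩ H)) ⊆
      F.filter (fun A => Disjoint B A) ∪ (B \ H).biUnion (fun x => F.filter (fun A => x ∈ A)) := by
    intro A hA
    rw [mem_filter] at hA
    rw [mem_union]
    by_cases hd : Disjoint B A
    · left
      rw [mem_filter]
      exact ⟨hA.1, hd⟩
    · right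
      rw [Finset.not_disjoint_iff] at hd
      obtain ⟨x, hxB, hxA⟩ := hd
      rw [mem_biUnion]
      refine ⟨x, ?_, ?_⟩
      · rw [mem_sdiff]
        refine ⟨hxB, fun hxH => ?_⟩
        exact Finset.disjoint_left.1 hA.2 (mem_inter.2 ⟨hxA, hxH⟩) (mem_inter.2 ⟨hxB, hxH⟩)
      · rw [mem_filter]
        exact ⟨hA.1, hxA⟩
  have h1 : (F.filter (fun A => Disjoint (A ∩ H) (B ∩ H))).card ≤
      s + ∑ x ∈ B \ H, (F.filter (fun A => x ∈ A)).card := by
    refine (card_le_card hsub).trans ((card_union_le _ _).trans ?_)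
    refine Nat.add_le_add ?_ card_biUnion_le
    have := ((hF.2 B hB).2)
    convert this
  have h2 : N * ∑ x ∈ B \ H, (F.filter (fun A => x ∈ A)).card ≤ k * s := by
    rw [mul_sum]
    calc ∑ x ∈ B \ H, N * (F.filter (fun A => x ∈ A)).card ≤ ∑ _x ∈ B \ H, s :=
          sum_le_sum fun x hx => hH x (mem_sdiff.1 hx).2
      _ = (B \ H).card * s := by rw [sum_const, smul_eq_mul]
      _ ≤ k * s := by
          apply Nat.mul_le_mul_right
          rw [← hF.1 B hB]
          exact card_le_card sdiff_subset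
  calc N * (F.filter (fun A => Disjoint (A ∩ H) (B ∩ H))).card
      ≤ N * (s + ∑ x ∈ B \ H, (F.filter (fun A => x ∈ A)).card) := Nat.mul_le_mul_left _ h1
    _ = N * s + N * ∑ x ∈ B \ H, (F.filter (fun A => x ∈ A)).card := by rw [mul_add]
    _ ≤ N * s + k * s := Nat.add_le_add_left h2 _
    _ = (N + k) * s := by ring

end R128.AI
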