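import Pool.Agent.R128.AI.Stm

set_option autoImplicit false

namespace R128.AI

theorem Num1_proof : Num1_stm := by
  intro a s h f N ha hN hs hf
  obtain ⟨C, hC⟩ : ∃ C : ℕ, C = (2 * a).choose a := ⟨_, rfl⟩
  rw [← hC] at hN hf ⊢
  have hC1 : 1 ≤ C := by
    rw [hC]
    exact Nat.choose_pos (by omega)
  obtain ⟨D, hD⟩ : ∃ D : ℕ, C = D + 1 := ⟨C - 1, by omega⟩
  have hCD : C - 1 = D := by omega
  rw [hCD] at hf
  have hN0 : 0 < N := by
    rw [hN]
    positivity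
  -- `4 (D (a+1) s) ≤ N s`
  have h1 : 4 * (D * ((a + 1) * s)) ≤ N * s := by
    rw [hN, hD]
    have : 4 * (D * ((a + 1) * s)) ≤ 4 * (D * ((a + 1) * s)) + 4 * ((a + 1) * s) :=
      Nat.le_add_right _ _
    calc 4 * (D * ((a + 1) * s)) ≤ 4 * (D * ((a + 1) * s)) + 4 * ((a + 1) * s) := this
      _ = 4 * (a + 1) * (D + 1) * s := by ring
  have h2 : 4 * (N * 2 ^ h) ≤ N * s := by
    have : 4 * 2 ^ h ≤ s := by omega
    calc 4 * (N * 2 ^ h) = N * (4 * 2 ^ h) := by ring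
      _ ≤ N * s := Nat.mul_le_mul_left _ this
  have h3 : 4 * (N * f) ≤ 4 * (N * ((s + 1) * C)) := by
    have h4 : D * ((N + (a + 1)) * s) = N * (D * s) + D * ((a + 1) * s) := by ring
    rw [h4] at hf
    have h5 : N * ((s + 1) * C) = N * (D * s) + N * s + N * C := by
      rw [hD]
      ring
    rw [h5]
    have h6 : 0 ≤ N * C := Nat.zero_le _
    omega
  have h4 : N * f ≤ N * ((s + 1) * C) := by omega
  exact Nat.le_of_mul_le_mul_left h4 hN0

end R128.AI
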