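import Pool.Agent.R128.AI.Stm

set_option autoImplicit false

open Finset Classical

namespace R128.AI

theorem Num2_proof : Num2_stm := by
  intro a s h f N n ha hN hs hf hlt
  obtain ⟨c, hc⟩ : ∃ c, (2 * a).choose a = c + 1 := by
    have : 0 < (2 * a).choose a := Nat.choose_pos (by omega)
    exact ⟨(2 * a).choose a - 1, by omega⟩
  rw [hc] at hN hf hlt
  simp only [Nat.add_sub_cancel] at hf
  set p := 2 ^ h with hp
  have hNpos : 0 < N := by rw [hN]; positivity
  have h1 : N * ((s + 1) * (c + 1) + 1) ≤ N * f := Nat.mul_le_mul_left _ hlt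
  have h2 : 4 * (c * ((a + 1) * s)) ≤ N * s := by
    rw [hN]
    nlinarith [Nat.zero_le ((a + 1) * s)]
  have h3 : N * (3 * s) ≤ N * (4 * p + 4 * n) := by
    nlinarith [Nat.zero_le (N * c), Nat.zero_le (N * s)]
  have h4 : 3 * s ≤ 4 * p + 4 * n := Nat.le_of_mul_le_mul_left h3 hNpos
  omega

end R128.AI
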