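import Pool.Agent.R128.AI.Stm

/-!
AI-PS (MP_67e379_co)
-/

set_option autoImplicit false

open Finset

namespace R128.AI

theorem PS_proof : PS_stm := by
  intro T Z
  unfold PP
  have h1 : ∏ z ∈ Z, ∏ x ∈ T, (z - x) = ∏ z ∈ Z, ∏ x ∈ T, ((-1) * (x - z)) := by
    refine Finset.prod_congr rfl fun z _ => Finset.prod_congr rfl fun x _ => ?_
    ring
  rw [h1]
  simp only [Finset.prod_mul_distrib, Finset.prod_const]
  rw [← pow_mul, Finset.prod_comm]

end R128.AI
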