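import Pool.Agent.R128.AI.Stm

/-!
AI-PZ (MP_67e379_co)
-/

set_option autoImplicit false

open Finset

namespace R128.AI

theorem PZ_proof : PZ_stm := by
  intro T Z
  unfold PP
  rw [Finset.prod_eq_zero_iff]
  constructor
  · rintro ⟨z, hz, h⟩
    rw [Finset.prod_eq_zero_iff] at h
    obtain ⟨x, hx, hzx⟩ := h
    rw [Finset.not_disjoint_iff]
    refine ⟨x, hx, ?_⟩
    rw [← sub_eq_zero.1 hzx]
    exact hz
  · intro h
    rw [Finset.not_disjoint_iff] at h
    obtain ⟨x, hx, hz⟩ := h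
    exact ⟨x, hz, Finset.prod_eq_zero hx (sub_self x)⟩

end R128.AI
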