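import Pool.Agent.R128.AI.Stm

set_option autoImplicit false

open Finset Classical

namespace R128.AI

/-- extension of a finite set of reals, avoiding a finite set -/
theorem Pad.ext (S V : Finset ℝ) (a : ℕ) (hS : S.card ≤ a) (hd : Disjoint S V) :
    ∃ P : Finset ℝ, S ⊆ P ∧ P.card = a ∧ Disjoint P V := by
  obtain ⟨W, hW, hWc⟩ := Set.Infinite.exists_subset_card_eq
    (s := ((↑(S ∪ V) : Set ℝ))ᶜ) (Set.Finite.infinite_compl (Finset.finite_toSet (S ∪ V)))
    (a - S.card)
  have hdis : Disjoint S W := by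
    rw [Finset.disjoint_left]
    intro x hx hxW
    have h1 := hW hxW
    apply h1
    exact mem_coe.2 (mem_union_left _ hx)
  refine ⟨S ∪ W, subset_union_left, ?_, ?_⟩
  · rw [card_union_of_disjoint hdis, hWc]
    omega
  · rw [Finset.disjoint_union_left]
    refine ⟨hd, ?_⟩
    rw [Finset.disjoint_left]
    intro x hxW hxV
    have h1 := hW hxW
    apply h1
    exact mem_coe.2 (mem_union_right _ hxV)

theorem Pad_proof : Pad_stm := by
  intro S S' a b hS hS' hd
  obtain ⟨P, h1, h2, h3⟩ := Pad.ext S S' a hS hd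
  obtain ⟨P', h4, h5, h6⟩ := Pad.ext S' P b hS' h3.symm
  exact ⟨P, P', h1, h4, h2, h5, h6.symm⟩

end R128.AI
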