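import Pool.Agent.R128.AI.Stm

set_option autoImplicit false

open Finset Classical

namespace R128.AI

/-- complementation on the `a`-subsets of a `2a`-set -/
noncomputable def RankA.sig {a : ℕ} {D : Finset ℝ} (hD : D.card = 2 * a) :
    {E // E ∈ powersetCard a D} ≃ {E // E ∈ powersetCard a D} where
  toFun E := ⟨D \ E.1, by
    have h := mem_powersetCard.1 E.2
    refine mem_powersetCard.2 ⟨sdiff_subset, ?_⟩
    rw [card_sdiff_of_subset h.1, h.2, hD]; omega⟩
  invFun E := ⟨D \ E.1, by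
    have h := mem_powersetCard.1 E.2
    refine mem_powersetCard.2 ⟨sdiff_subset, ?_⟩
    rw [card_sdiff_of_subset h.1, h.2, hD]; omega⟩
  left_inv E := by
    have h := mem_powersetCard.1 E.2
    apply Subtype.ext
    simp only
    exact Finset.sdiff_sdiff_eq_self h.1
  right_inv E := by
    have h := mem_powersetCard.1 E.2
    apply Subtype.ext
    simp only
    exact Finset.sdiff_sdiff_eq_self h.1

theorem RankA.key (hPS : PS) (hI : Intp) {a : ℕ} {D : Finset ℝ} (hD : D.card = 2 * a)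
    (T U : Finset ℝ) (hT : T.card = a) (hU : U.card = a) :
    ∑ e : {E // E ∈ powersetCard a D},
      ((-1 : ℝ) ^ (a * a) / PP (D \ e.1) e.1) * ev a D T e * ev a D U (RankA.sig hD e) =
      PP T U := by
  rw [hI a D T U hD hT hU, ← Finset.sum_coe_sort (powersetCard a D)
    (fun E => PP T E * (PP (D \ E) U / PP (D \ E) E))]
  apply Finset.sum_congr rfl
  rintro ⟨E, hE⟩ -
  have h := mem_powersetCard.1 hE
  have hc : (D \ E).card = a := by
    rw [card_sdiff_of_subset h.1, h.2, hD]; omega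
  have e1 : ev a D T ⟨E, hE⟩ = PP T E := rfl
  have e2 : ev a D U (RankA.sig hD ⟨E, hE⟩) = PP U (D \ E) := rfl
  rw [e1, e2, hPS U (D \ E), hU, hc]
  have e3 : ((-1 : ℝ) ^ (a * a)) * ((-1 : ℝ) ^ (a * a)) = 1 := by
    rw [← mul_pow]; norm_num
  show ((-1 : ℝ) ^ (a * a) / PP (D \ E) E) * PP T E * ((-1) ^ (a * a) * PP (D \ E) U) =
    PP T E * (PP (D \ E) U / PP (D \ E) E)
  calc ((-1 : ℝ) ^ (a * a) / PP (D \ E) E) * PP T E * ((-1) ^ (a * a) * PP (D \ E) U)
      = (((-1 : ℝ) ^ (a * a)) * ((-1 : ℝ) ^ (a * a))) *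
        (PP T E * (PP (D \ E) U / PP (D \ E) E)) := by ring
    _ = _ := by rw [e3, one_mul]

theorem RankA_proof : RankA_stm := by
  intro hPZ hPS hI hL a ι κ _ _ T U T' B D ha hD hT hU hT' hR
  obtain ⟨⟨c1, c2⟩, -, r1, r2, r3⟩ := hR
  have hcard : Fintype.card {E // E ∈ powersetCard a D} = (2 * a).choose a := by
    rw [Fintype.card_coe, card_powersetCard, hD]
  rw [← hcard]
  refine hL {E // E ∈ powersetCard a D} ι κ (RankA.sig hD)
    (fun e => (-1 : ℝ) ^ (a * a) / PP (D \ e.1) e.1)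
    (fun i => ev a D (T i)) (fun i => ev a D (U i)) (fun j => ev a D (T' j)) ?_ ?_ ?_ ?_ ?_ ?_
  · rintro ⟨E, hE⟩
    have h1 : PP (D \ E) E ≠ 0 := by
      rw [Ne, hPZ, not_not]
      exact sdiff_disjoint
    exact div_ne_zero (pow_ne_zero _ (by norm_num)) h1
  · intro i
    have := RankA.key hPS hI hD (T i) (U i) (hT i) (hU i)
    show ∑ e : {E // E ∈ powersetCard a D},
      ((-1 : ℝ) ^ (a * a) / PP (D \ e.1) e.1) * ev a D (T i) e *
        ev a D (U i) (RankA.sig hD e) ≠ 0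
    rw [this, Ne, hPZ, not_not]
    exact c1 i
  · intro i j hij
    have := RankA.key hPS hI hD (T i) (U j) (hT i) (hU j)
    show ∑ e : {E // E ∈ powersetCard a D},
      ((-1 : ℝ) ^ (a * a) / PP (D \ e.1) e.1) * ev a D (T i) e *
        ev a D (U j) (RankA.sig hD e) = 0
    rw [this, hPZ]
    exact c2 i j hij
  · intro j i
    have := RankA.key hPS hI hD (T' j) (T i) (hT' j) (hT i)
    show ∑ e : {E // E ∈ powersetCard a D},
      ((-1 : ℝ) ^ (a * a) / PP (D \ e.1) e.1) * ev a D (T' j) e *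
        ev a D (T i) (RankA.sig hD e) = 0
    rw [this, hPZ]
    exact r1 j i
  · intro j i
    have := RankA.key hPS hI hD (T' j) (U i) (hT' j) (hU i)
    show ∑ e : {E // E ∈ powersetCard a D},
      ((-1 : ℝ) ^ (a * a) / PP (D \ e.1) e.1) * ev a D (T' j) e *
        ev a D (U i) (RankA.sig hD e) = 0
    rw [this, hPZ]
    exact r2 j i
  · intro j l
    have := RankA.key hPS hI hD (T' j) (T' l) (hT' j) (hT' l)
    show ∑ e : {E // E ∈ powersetCard a D},
      ((-1 : ℝ) ^ (a * a) / PP (D \ e.1) e.1) * ev a D (T' j) e *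
        ev a D (T' l) (RankA.sig hD e) = 0
    rw [this, hPZ]
    exact r3 j l

end R128.AI
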