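import Pool.Agent.R128.AI.Stm

set_option autoImplicit false

namespace R128.AI
open Finset Classical

theorem RankB.exG (n : ℕ) (V : Finset ℝ) : ∃ G : Finset ℝ, G.card = n ∧ Disjoint V G := by
  have hinf : (Set.univ \ (V : Set ℝ)).Infinite := Set.infinite_univ.diff V.finite_toSet
  obtain ⟨G, hG, hc⟩ := hinf.exists_subset_card_eq n
  refine ⟨G, hc, ?_⟩
  rw [Finset.disjoint_right]
  intro x hx hV
  exact (hG hx).2 hV

theorem RankB.dc (a : ℕ) (G : Finset ℝ) (J : Finset (Finset ℝ))
    (hJ : J ⊆ powersetCard (a + 1) G) :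
    ∑ g ∈ G, (J.filter (fun I => g ∈ I)).card = (a + 1) * J.card := by
  have h1 : ∀ g ∈ G, (J.filter (fun I => g ∈ I)).card = ∑ I ∈ J, if g ∈ I then 1 else 0 := by
    intro g _
    rw [Finset.card_filter]
  rw [Finset.sum_congr rfl h1, Finset.sum_comm]
  have h2 : ∀ I ∈ J, (∑ g ∈ G, if g ∈ I then 1 else 0) = a + 1 := by
    intro I hI
    obtain ⟨hs, hc⟩ := mem_powersetCard.1 (hJ hI)
    rw [← Finset.card_filter, Finset.filter_mem_eq_inter, Finset.inter_eq_right.2 hs, hc]
  rw [Finset.sum_congr rfl h2, Finset.sum_const, smul_eq_mul, mul_comm]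

theorem RankB_proof : RankB_stm := by
  intro hInd hThr hLA2 a κ _ T' B D hD hT hB hC
  obtain ⟨G, hG, hdis⟩ := RankB.exG (2 * a + 1) (univ.biUnion T')
  have hTG : ∀ j, Disjoint (T' j) G := fun j =>
    Disjoint.mono_left (Finset.subset_biUnion_of_mem T' (mem_univ j)) hdis
  have hli := hInd a κ T' B G hG hT hB hC
  obtain ⟨J0, hJc, hJli⟩ := hLA2 κ {I // I ∈ powersetCard (a + 1) G}
    (fun j I => PP (T' j) I.1) hli
  let J : Finset (Finset ℝ) := J0.map (Function.Embedding.subtype _)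
  have hJcard : J.card = Fintype.card κ := by
    rw [Finset.card_map, hJc]
  have hJsub : J ⊆ powersetCard (a + 1) G := by
    intro I hI
    obtain ⟨x, _, rfl⟩ := Finset.mem_map.1 hI
    exact x.2
  let e : {x // x ∈ J} → {x // x ∈ J0} := fun x =>
    ⟨⟨x.1, hJsub x.2⟩, by
      obtain ⟨y, hy, hyx⟩ := Finset.mem_map.1 x.2
      have : (⟨x.1, hJsub x.2⟩ : {I // I ∈ powersetCard (a + 1) G}) = y := Subtype.ext hyx.symm
      rw [this]; exact hy⟩
  have he : Function.Injective e := by
    intro x y hxy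
    have := congrArg (fun z => z.1.1) hxy
    exact Subtype.ext this
  have hJli' : LinearIndependent ℝ (fun (I : {x // x ∈ J}) (j : κ) => PP (T' j) I.1) :=
    hJli.comp e he
  have hb : ∀ g ∈ G, (J.filter (fun I => g ∈ I)).card ≤
      Module.finrank ℝ (Submodule.span ℝ (Set.range (fun j => ev a D (T' j)))) :=
    fun g hg => hThr a κ T' D G g J hD hT hTG hg hJsub hJli'
  calc (a + 1) * Fintype.card κ = ∑ g ∈ G, (J.filter (fun I => g ∈ I)).card := by
        rw [RankB.dc a G J hJsub, hJcard]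
    _ ≤ ∑ g ∈ G, Module.finrank ℝ (Submodule.span ℝ (Set.range (fun j => ev a D (T' j)))) :=
        Finset.sum_le_sum hb
    _ = (2 * a + 1) * Module.finrank ℝ
        (Submodule.span ℝ (Set.range (fun j => ev a D (T' j)))) := by
        rw [Finset.sum_const, smul_eq_mul, hG]

end R128.AI
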