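import Pool.Agent.R128.AI.Stm

/-!
# Project AI: the structure statement `Str`.
-/

set_option autoImplicit false

open Finset Classical

namespace R128.AI

theorem Str.card_tra {a s : ℕ} {α : Type} {F : Finset (Finset α)} {H : Finset α}
    (hF : AInt (a + 1) s F) {T : Finset α} (hT : T ∈ Tra H F) : T.card ≤ a := by
  unfold Tra at hT
  obtain ⟨A, hA, rfl⟩ := Finset.mem_image.1 hT
  unfold Ord at hA
  obtain ⟨hAF, hAH⟩ := Finset.mem_filter.1 hA
  have h1 : A.card = a + 1 := hF.1 A hAF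
  have h2 : (A ∩ H).card < A.card := by
    apply Finset.card_lt_card
    refine ⟨Finset.inter_subset_left, fun h => hAH (fun x hx => ?_)⟩
    exact (Finset.mem_inter.1 (h hx)).2
  omega

theorem Str.tra_sub {α : Type} {F : Finset (Finset α)} {H : Finset α}
    {T : Finset α} (hT : T ∈ Tra H F) : T ⊆ H := by
  unfold Tra at hT
  obtain ⟨A, hA, rfl⟩ := Finset.mem_image.1 hT
  exact Finset.inter_subset_right

/-- first alternative from the two covers -/
theorem Str.alt {α : Type} {F : Finset (Finset α)} {H : Finset α} {c : ℕ}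
    (G1 G2 : Finset (Finset α)) (h1 : G1 ⊆ Tra H F) (h2 : G2 ⊆ Spc H F)
    (hc : G1.card + G2.card < c)
    (hcov : ∀ T ∈ Tra H F, (∃ U ∈ G1, Disjoint T U) ∨ ∃ B ∈ G2, Disjoint T B) :
    ∃ G ⊆ F, G.card < c ∧ ∀ A ∈ Ord H F, ∃ B ∈ G, Disjoint (A ∩ H) (B ∩ H) := by
  have hex : ∀ U ∈ G1, ∃ A ∈ Ord H F, A ∩ H = U := by
    intro U hU
    have := h1 hU
    unfold Tra at this
    exact Finset.mem_image.1 this
  choose! e he1 he2 using hex
  refine ⟨G1.image e ∪ G2, ?_, ?_, ?_⟩
  · intro B hB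
    rcases Finset.mem_union.1 hB with hB | hB
    · obtain ⟨U, hU, rfl⟩ := Finset.mem_image.1 hB
      have := he1 U hU
      unfold Ord at this
      exact (Finset.mem_filter.1 this).1
    · have := h2 hB
      unfold Spc at this
      exact (Finset.mem_filter.1 this).1
  · have h3 := Finset.card_union_le (G1.image e) G2
    have h4 : (G1.image e).card ≤ G1.card := Finset.card_image_le
    omega
  · intro A hA
    have hT : A ∩ H ∈ Tra H F := by
      unfold Tra
      exact Finset.mem_image_of_mem _ hA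
    rcases hcov _ hT with ⟨U, hU, hd⟩ | ⟨B, hB, hd⟩
    · refine ⟨e U, Finset.mem_union_left _ (Finset.mem_image_of_mem _ hU), ?_⟩
      rw [he2 U hU]
      exact hd
    · exact ⟨B, Finset.mem_union_right _ hB, hd.mono_right Finset.inter_subset_left⟩

theorem Str_proof : Str_stm := by
  intro hMinC hBol hUni hMix a s α F H ha hF
  -- the two parts of the traces
  have hcover : ∀ T ∈ (Tra H F).filter (fun T => ¬ ∃ U ∈ Tra H F, Disjoint T U),
      ∃ B ∈ Spc H F, Disjoint T B := by
    intro T hT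
    obtain ⟨hT1, hT2⟩ := Finset.mem_filter.1 hT
    have hT1' := hT1
    unfold Tra at hT1'
    obtain ⟨A, hA, hAT⟩ := Finset.mem_image.1 hT1'
    have hA' := hA
    unfold Ord at hA'
    obtain ⟨hAF, hAH⟩ := Finset.mem_filter.1 hA'
    have hpos := (hF.2 A hAF).1
    obtain ⟨B, hB⟩ := Finset.card_pos.1 (lt_of_lt_of_le Nat.zero_lt_one hpos)
    obtain ⟨hBF, hAB⟩ := Finset.mem_filter.1 hB
    by_cases hBH : B ⊆ H
    · refine ⟨B, ?_, ?_⟩
      · unfold Spc
        exact Finset.mem_filter.2 ⟨hBF, hBH⟩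
      · rw [← hAT]
        exact hAB.mono_left Finset.inter_subset_left
    · exfalso
      apply hT2
      refine ⟨B ∩ H, ?_, ?_⟩
      · unfold Tra
        apply Finset.mem_image_of_mem
        unfold Ord
        exact Finset.mem_filter.2 ⟨hBF, hBH⟩
      · rw [← hAT]
        exact hAB.mono Finset.inter_subset_left Finset.inter_subset_left
  obtain ⟨G1, hG1, hG1c, hG1p⟩ := hMinC (Finset α) (Finset α) (fun T U => Disjoint T U)
    ((Tra H F).filter (fun T => ∃ U ∈ Tra H F, Disjoint T U)) (Tra H F)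
    (fun T hT => (Finset.mem_filter.1 hT).2)
  obtain ⟨G2, hG2, hG2c, hG2p⟩ := hMinC (Finset α) (Finset α) (fun T U => Disjoint T U)
    ((Tra H F).filter (fun T => ¬ ∃ U ∈ Tra H F, Disjoint T U)) (Spc H F) hcover
  have hcov : ∀ T ∈ Tra H F, (∃ U ∈ G1, Disjoint T U) ∨ ∃ B ∈ G2, Disjoint T B := by
    intro T hT
    by_cases h : ∃ U ∈ Tra H F, Disjoint T U
    · exact Or.inl (hG1c T (Finset.mem_filter.2 ⟨hT, h⟩))
    · exact Or.inr (hG2c T (Finset.mem_filter.2 ⟨hT, h⟩))
  -- the set pair systems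
  choose! t ht1 ht2 ht3 using hG1p
  choose! t' ht1' ht2' ht3' using hG2p
  have hcross : Cross (fun i : {x // x ∈ G1} => t i.1) (fun i => i.1) := by
    refine ⟨fun i => ht2 i.1 i.2, fun i j hij => ?_⟩
    exact ht3 i.1 i.2 j.1 j.2 (fun h => hij (Subtype.ext h.symm))
  have hs1 : ∀ i : {x // x ∈ G1}, (t i.1).card ≤ a := fun i =>
    Str.card_tra hF (Finset.mem_filter.1 (ht1 i.1 i.2)).1
  have hs2 : ∀ i : {x // x ∈ G1}, (i.1).card ≤ a := fun i => Str.card_tra hF (hG1 i.2)
  by_cases hne : G2.Nonempty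
  · left
    have hcross' : Cross (fun i : {x // x ∈ G2} => t' i.1) (fun i => i.1) := by
      refine ⟨fun i => ht2' i.1 i.2, fun i j hij => ?_⟩
      exact ht3' i.1 i.2 j.1 j.2 (fun h => hij (Subtype.ext h.symm))
    have hm : ∀ j : {x // x ∈ G2}, ∀ U ∈ Tra H F, ¬ Disjoint (t' j.1) U := by
      intro j U hU hd
      exact (Finset.mem_filter.1 (ht1' j.1 j.2)).2 ⟨U, hU, hd⟩
    have hlt := hMix a {x // x ∈ G1} {x // x ∈ G2} α (fun i => t i.1) (fun i => i.1)
      (fun i => t' i.1) (fun i => i.1) ha hs1 hs2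
      (fun j => Str.card_tra hF (Finset.mem_filter.1 (ht1' j.1 j.2)).1)
      (fun j => by
        have := hG2 j.2
        unfold Spc at this
        exact le_of_eq (hF.1 _ (Finset.mem_filter.1 this).1))
      ⟨hcross, hcross', fun j i => hm j _ (Finset.mem_filter.1 (ht1 i.1 i.2)).1,
        fun j i => hm j _ (hG1 i.2),
        fun j l => hm j _ (Finset.mem_filter.1 (ht1' l.1 l.2)).1⟩
      (by
        obtain ⟨x, hx⟩ := hne
        exact Fintype.card_pos_iff.2 ⟨⟨x, hx⟩⟩)
    rw [Fintype.card_coe, Fintype.card_coe] at hlt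
    exact Str.alt G1 G2 hG1 hG2 hlt hcov
  · rw [Finset.not_nonempty_iff_eq_empty] at hne
    subst hne
    have hb := hBol a a {x // x ∈ G1} α (fun i => t i.1) (fun i => i.1) hs1 hs2 hcross
    rw [Fintype.card_coe, ← two_mul] at hb
    rcases lt_or_eq_of_le hb with hlt | heq
    · left
      exact Str.alt G1 ∅ hG1 hG2 (by simpa using hlt) hcov
    · right
      obtain ⟨Y, hY1, hY2, hY3⟩ := hUni a {x // x ∈ G1} α (fun i => t i.1) (fun i => i.1) ha
        hs1 hs2 hcross (by rw [Fintype.card_coe]; exact heq)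
      have hsub : powersetCard a Y ⊆ Tra H F := by
        intro E hE
        obtain ⟨i, hi⟩ := hY3 E hE
        rw [← hi]
        exact hG1 i.2
      refine ⟨Y, ?_, hY1, hsub, ?_⟩
      · intro y hy
        obtain ⟨E, hE1, hE2, hE3⟩ := Finset.exists_subsuperset_card_eq
          (Finset.singleton_subset_iff.2 hy) (n := a) (by simpa using ha) (by omega)
        have hE : E ∈ powersetCard a Y := Finset.mem_powersetCard.2 ⟨hE2, hE3⟩
        exact Str.tra_sub (hsub hE) (Finset.singleton_subset_iff.1 hE1)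
      · intro A hA
        have hT : A ∩ H ∈ Tra H F := by
          unfold Tra
          exact Finset.mem_image_of_mem _ hA
        rcases hcov _ hT with ⟨U, hU, hd⟩ | ⟨B, hB, hd⟩
        · exact ⟨U, hY2 ⟨U, hU⟩, hd⟩
        · exact absurd hB (Finset.notMem_empty B)

end R128.AI
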