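import Pool.Agent.R128.AI.Stm

/-! AI-Thr (helper45). -/

set_option autoImplicit false

open Finset Classical

namespace R128.AI

theorem Thr_proof : Thr_stm := by
  intro hI hL a κ _ T' D G g J hD hT hdis hg hJ hli
  have h := hL κ {E // E ∈ powersetCard a D} {x // x ∈ J.filter (fun I => g ∈ I)}
    (fun j => ev a D (T' j)) (fun j => ∏ x ∈ T' j, (g - x))
    (fun t j => PP (T' j) t.1)
    (fun t E => PP (D \ E.1) (t.1.erase g) / PP (D \ E.1) E.1) ?_ ?_ ?_
  · rwa [Fintype.card_coe] at h
  · intro j
    rw [Finset.prod_ne_zero_iff]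
    intro x hx h0
    have : g = x := by linarith
    exact Finset.disjoint_left.mp (hdis j) hx (this ▸ hg)
  · have := hli.comp (fun t : {x // x ∈ J.filter (fun I => g ∈ I)} =>
      (⟨t.1, (Finset.mem_filter.mp t.2).1⟩ : {x // x ∈ J})) (by
        intro t t' htt
        apply Subtype.ext
        exact congrArg (fun u : {x // x ∈ J} => u.1) htt)
    exact this
  · rintro ⟨I, hIJ⟩ j
    rw [Finset.mem_filter] at hIJ
    have hIc := (Finset.mem_powersetCard.mp (hJ hIJ.1)).2
    have hUc : (I.erase g).card = a := by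
      rw [Finset.card_erase_of_mem hIJ.2]; omega
    have h1 : PP (T' j) I = (∏ x ∈ T' j, (g - x)) * PP (T' j) (I.erase g) := by
      unfold PP
      exact (Finset.mul_prod_erase I (fun z => ∏ x ∈ T' j, (z - x)) hIJ.2).symm
    rw [h1, hI a D (T' j) (I.erase g) hD (hT j) hUc]
    congr 1
    rw [← Finset.sum_coe_sort]
    refine Finset.sum_congr rfl fun E _ => ?_
    rw [mul_comm]
    rfl

end R128.AI
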