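import Pool.Agent.R128.AI.Stm

/-! AI-UCon (helper45). -/

set_option autoImplicit false

open Finset Classical

namespace R128.AI

theorem UCon_proof : UCon_stm := by
  intro a α Y S P hY hSY hSa hPS hstep
  have key : ∀ n : ℕ, ∀ E : Finset α, E ⊆ Y → E.card = a → (E \ S).card = n → P E := by
    intro n
    induction n with
    | zero =>
      intro E _ hEa h0
      have hsub : E ⊆ S := by
        rw [Finset.card_eq_zero, Finset.sdiff_eq_empty_iff_subset] at h0
        exact h0
      have : E = S := Finset.eq_of_subset_of_card_le hsub (by omega)
      rw [this]; exact hPS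
    | succ n ih =>
      intro E hEY hEa hn
      obtain ⟨y, hy⟩ : (E \ S).Nonempty := Finset.card_pos.mp (by omega)
      have h1 : (S \ E).card = (E \ S).card :=
        Finset.card_sdiff_comm (by omega)
      obtain ⟨x, hx⟩ : (S \ E).Nonempty := Finset.card_pos.mp (by omega)
      rw [Finset.mem_sdiff] at hx hy
      have hxy : x ≠ y := fun h => hx.2 (h ▸ hy.1)
      have hxE : x ∉ E.erase y := fun h => hx.2 (Finset.mem_of_mem_erase h)
      have hpos : 0 < E.card := Finset.card_pos.mpr ⟨y, hy.1⟩
      have hE'Y : insert x (E.erase y) ⊆ Y := by
        intro z hz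
        rcases Finset.mem_insert.mp hz with rfl | hz
        · exact hSY hx.1
        · exact hEY (Finset.mem_of_mem_erase hz)
      have hE'a : (insert x (E.erase y)).card = a := by
        rw [Finset.card_insert_of_notMem hxE, Finset.card_erase_of_mem hy.1]
        omega
      have hE'n : (insert x (E.erase y) \ S).card = n := by
        have : insert x (E.erase y) \ S = (E \ S).erase y := by
          ext z
          simp only [Finset.mem_sdiff, Finset.mem_insert, Finset.mem_erase]
          constructor
          · rintro ⟨rfl | ⟨h2, h3⟩, h4⟩
            · exact absurd hx.1 h4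
            · exact ⟨h2, h3, h4⟩
          · rintro ⟨h2, h3, h4⟩
            exact ⟨Or.inr ⟨h2, h3⟩, h4⟩
        rw [this, Finset.card_erase_of_mem (Finset.mem_sdiff.mpr hy)]
        omega
      have hP' := ih _ hE'Y hE'a hE'n
      have hyn : y ∈ Y \ insert x (E.erase y) := by
        rw [Finset.mem_sdiff]
        refine ⟨hEY hy.1, ?_⟩
        rw [Finset.mem_insert]
        rintro (h | h)
        · exact hxy h.symm
        · exact (Finset.notMem_erase y E) h
      have := hstep _ hE'Y hE'a hP' x (Finset.mem_insert_self _ _) y hyn
      rwa [Finset.erase_insert hxE, Finset.insert_erase hy.1] at this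
  exact fun E hEY hEa => key _ E hEY hEa rfl

end R128.AI
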