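import Pool.Agent.R128.AI.Stm

set_option autoImplicit false

open Finset Classical

namespace R128.AI

theorem UDel_proof : UDel_stm := by
  intro hsum ι α G I A B hA hB hd hc hne h1
  have hle : ∀ x ∈ G, ∑ i ∈ I.filter (fun i => x ∉ A i), wt (A i).card ((B i).erase x).card ≤ 1 := by
    intro x hx
    have h := Pool.Agent.H416Sens.bollobas G (I.filter (fun i => x ∉ A i)) A
      (fun i => (B i).erase x) ?_ ?_ ?_ ?_
    · exact h
    · intro i hi
      rw [mem_filter] at hi
      exact hA i hi.1
    · intro i hi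
      rw [mem_filter] at hi
      exact (Finset.erase_subset _ _).trans (hB i hi.1)
    · intro i hi
      rw [mem_filter] at hi
      exact Disjoint.mono_right (Finset.erase_subset _ _) (hd i hi.1)
    · intro i hi j hj hij
      rw [mem_filter] at hi hj
      have h2 := hc i hi.1 j hj.1 hij
      rw [Finset.not_disjoint_iff] at h2 ⊢
      obtain ⟨y, hy1, hy2⟩ := h2
      refine ⟨y, hy1, ?_⟩
      rw [mem_erase]
      exact ⟨fun h => hi.2 (h ▸ hy1), hy2⟩
  have htot := hsum ι α G I A B hA hB hd hne
  rw [h1, mul_one] at htot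
  have heq : ∑ x ∈ G, ∑ i ∈ I.filter (fun i => x ∉ A i), wt (A i).card ((B i).erase x).card
      = ∑ x ∈ G, (1 : ℝ) := by
    rw [htot]; simp
  exact (Finset.sum_eq_sum_iff_of_le hle).1 heq

end R128.AI
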