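import Pool.Agent.R128.AI.Stm

set_option autoImplicit false

open Finset Classical

namespace R128.AI

theorem UDels_proof : UDels_stm := by
  intro hdel ι α G D I A B i0 hA hB hd hc h1 hDG hi0 hdis0 hnsub
  induction D using Finset.induction_on with
  | empty =>
    have hf : I.filter (fun i => Disjoint (A i) (∅ : Finset α)) = I := by
      apply Finset.filter_true_of_mem
      intro i _
      exact disjoint_empty_right _
    rw [hf]
    simpa using h1
  | insert x D hx ih =>
    have hDG' : D ⊆ G := (Finset.subset_insert x D).trans hDG
    have hxG : x ∈ G := hDG (Finset.mem_insert_self x D)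
    have hdis0' : Disjoint (A i0) D := Disjoint.mono_right (Finset.subset_insert x D) hdis0
    have hnsub' : ¬ B i0 ⊆ D := fun h => hnsub (h.trans (Finset.subset_insert x D))
    have ih' := ih hDG' hdis0' hnsub'
    have key := hdel ι α G (I.filter (fun i => Disjoint (A i) D)) A (fun i => B i \ D)
      ?_ ?_ ?_ ?_ ?_ ih' x hxG
    · have hf : (I.filter (fun i => Disjoint (A i) D)).filter (fun i => x ∉ A i)
          = I.filter (fun i => Disjoint (A i) (insert x D)) := by
        ext i
        simp only [mem_filter, Finset.disjoint_insert_right]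
        tauto
      rw [hf] at key
      rw [← key]
      apply Finset.sum_congr rfl
      intro i _
      have : B i \ insert x D = (B i \ D).erase x := by
        ext y
        simp only [mem_sdiff, mem_insert, mem_erase]
        tauto
      rw [this]
    · intro i hi
      rw [mem_filter] at hi
      exact hA i hi.1
    · intro i hi
      rw [mem_filter] at hi
      exact Finset.sdiff_subset.trans (hB i hi.1)
    · intro i hi
      rw [mem_filter] at hi
      exact Disjoint.mono_right Finset.sdiff_subset (hd i hi.1)
    · intro i hi j hj hij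
      rw [mem_filter] at hi hj
      have h2 := hc i hi.1 j hj.1 hij
      rw [Finset.not_disjoint_iff] at h2 ⊢
      obtain ⟨y, hy1, hy2⟩ := h2
      refine ⟨y, hy1, ?_⟩
      rw [mem_sdiff]
      exact ⟨hy2, fun h => (Finset.disjoint_left.1 hi.2) hy1 h⟩
    · intro i hi
      rw [mem_filter] at hi
      by_cases hii : i = i0
      · subst hii
        obtain ⟨y, hy, hy'⟩ := Finset.not_subset.1 hnsub'
        exact ⟨y, mem_sdiff.2 ⟨hy, hy'⟩⟩
      · have h2 := hc i0 hi0 i hi.1 (fun h => hii h.symm)
        rw [Finset.not_disjoint_iff] at h2
        obtain ⟨y, hy1, hy2⟩ := h2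
        exact ⟨y, mem_sdiff.2 ⟨hy2, fun h => (Finset.disjoint_left.1 hdis0') hy1 h⟩⟩

end R128.AI
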