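import Pool.Agent.R128.AI.Stm

/-! # AI-UEx: the exchange property (helper799, for helper128) -/

set_option autoImplicit false

open Finset

open scoped Classical in
theorem R128.AI.UEx_proof : R128.AI.UEx_stm := by
  intro hH a ι α _ A B ha hA hB hC hcard i0 x hx y hy
  obtain ⟨j, hj⟩ := hH a ι α A B ha hA hB hC hcard i0 x hx y hy
  have hC' : R128.AI.Cross B A := by
    refine ⟨fun i => (hC.1 i).symm, fun i j hij h => ?_⟩
    exact hC.2 j i (Ne.symm hij) h.symm
  obtain ⟨j', hj'⟩ := hH a ι α B A ha hB hA hC' hcard i0 y hy x hx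
  have hd := hC.1 i0
  have hxy : x ≠ y := by
    rintro rfl
    exact Finset.disjoint_left.1 hd hx hy
  have hdis : Disjoint (A j) (B j') := by
    rw [hj, hj', Finset.disjoint_left]
    intro z hz hz'
    rw [Finset.mem_insert, Finset.mem_erase] at hz hz'
    rcases hz with hz | ⟨hz1, hz2⟩
    · rcases hz' with hz' | ⟨hz1', hz2'⟩
      · exact hxy (hz' ▸ hz)
      · exact hz1' hz
    · rcases hz' with hz' | ⟨hz1', hz2'⟩
      · exact hz1 hz'
      · exact Finset.disjoint_left.1 hd hz2 hz2'
  have hjj : j = j' := by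
    by_contra h
    exact hC.2 j j' h hdis
  subst hjj
  exact ⟨j, hj, hj'⟩
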