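import Pool.Agent.R128.AI.Stm

set_option autoImplicit false

open Finset Classical

namespace R128.AI

theorem UExH_proof : UExH_stm := by
  intro hUD a ι α _ A B ha hA hB hC hcard i0 x hx y hy
  obtain ⟨c1, c2⟩ := hC
  set G : Finset α := (univ.biUnion A) ∪ (univ.biUnion B) with hG
  have hAG : ∀ i, A i ⊆ G := fun i z hz =>
    mem_union_left _ (mem_biUnion.2 ⟨i, mem_univ i, hz⟩)
  have hBG : ∀ i, B i ⊆ G := fun i z hz =>
    mem_union_right _ (mem_biUnion.2 ⟨i, mem_univ i, hz⟩)
  set Z : Finset α := insert y (A i0) with hZ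
  have hyA : y ∉ A i0 := fun h => disjoint_left.1 (c1 i0) h hy
  have hZc : Z.card = a + 1 := by rw [hZ, card_insert_of_notMem hyA, hA]
  set D : Finset α := G \ Z with hD
  have hsum : ∑ i ∈ (univ : Finset ι), wt (A i).card (B i).card = 1 := by
    have h1 : ∀ i ∈ (univ : Finset ι), wt (A i).card (B i).card =
        1 / ((2 * a).choose a : ℝ) := by
      intro i _
      rw [hA, hB, wt, two_mul]
    rw [sum_congr rfl h1, sum_const, card_univ, hcard, nsmul_eq_mul]
    have : ((2 * a).choose a : ℝ) ≠ 0 := by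
      exact_mod_cast (Nat.choose_pos (by omega)).ne'
    field_simp
  have hdis : Disjoint (A i0) D := by
    rw [disjoint_left]
    intro z hz hzD
    exact (mem_sdiff.1 hzD).2 (mem_insert_of_mem hz)
  have hyD : y ∉ D := fun h => (mem_sdiff.1 h).2 (mem_insert_self _ _)
  have h2 := hUD ι α G D univ A B i0 (fun i _ => hAG i) (fun i _ => hBG i) (fun i _ => c1 i)
    (fun i _ j _ hij => c2 i j hij) hsum sdiff_subset (mem_univ _) hdis
    (fun h => hyD (h hy))
  set I : Finset ι := univ.filter (fun i => Disjoint (A i) D) with hI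
  have hAZ : ∀ i ∈ I, A i ⊆ Z := by
    intro i hi z hz
    by_contra hzZ
    exact disjoint_left.1 (mem_filter.1 hi).2 hz (mem_sdiff.2 ⟨hAG i hz, hzZ⟩)
  have hone : ∀ i ∈ I, (B i \ D).card = 1 := by
    intro i hi
    apply le_antisymm
    · have h3 : B i \ D ⊆ Z \ A i := by
        intro z hz
        obtain ⟨hz1, hz2⟩ := mem_sdiff.1 hz
        refine mem_sdiff.2 ⟨?_, fun h => disjoint_left.1 (c1 i) h hz1⟩
        by_contra hzZ
        exact hz2 (mem_sdiff.2 ⟨hBG i hz1, hzZ⟩)
      have h4 := card_le_card h3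
      rw [card_sdiff_of_subset (hAZ i hi), hZc, hA] at h4
      omega
    · rw [Nat.one_le_iff_ne_zero, Ne, card_eq_zero, ← Ne, ← nonempty_iff_ne_empty]
      by_cases h : i = i0
      · rw [h]; exact ⟨y, mem_sdiff.2 ⟨hy, hyD⟩⟩
      · have h5 := c2 i0 i (Ne.symm h)
        rw [not_disjoint_iff] at h5
        obtain ⟨z, hz1, hz2⟩ := h5
        exact ⟨z, mem_sdiff.2 ⟨hz2, fun hzD => disjoint_left.1 hdis hz1 hzD⟩⟩
  have hIc : I.card = a + 1 := by
    have h6 : ∑ i ∈ I, wt (A i).card (B i \ D).card = ∑ _i ∈ I, (1 / ((a + 1 : ℕ) : ℝ)) := by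
      apply sum_congr rfl
      intro i hi
      rw [hone i hi, hA, wt, Nat.choose_succ_self_right]
    rw [h6, sum_const, nsmul_eq_mul] at h2
    have h7 : ((a + 1 : ℕ) : ℝ) ≠ 0 := by positivity
    field_simp at h2
    exact_mod_cast h2
  have hinj : Set.InjOn A (I : Set ι) := by
    intro i _ j _ hij
    by_contra hne
    have := c2 i j hne
    rw [hij] at this
    exact this (c1 j)
  have himg : I.image A = powersetCard a Z := by
    apply eq_of_subset_of_card_le
    · intro E hE
      obtain ⟨i, hi, rfl⟩ := mem_image.1 hE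
      exact mem_powersetCard.2 ⟨hAZ i hi, hA i⟩
    · rw [card_image_of_injOn hinj, hIc, card_powersetCard, hZc, Nat.choose_succ_self_right]
  have hmem : insert y ((A i0).erase x) ∈ powersetCard a Z := by
    refine mem_powersetCard.2 ⟨insert_subset_insert _ (erase_subset _ _), ?_⟩
    rw [card_insert_of_notMem (fun h => hyA (mem_of_mem_erase h)), card_erase_of_mem hx, hA]
    omega
  rw [← himg] at hmem
  obtain ⟨j, _, hj⟩ := mem_image.1 hmem
  exact ⟨j, hj⟩

end R128.AI
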