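import Pool.Agent.R128.AI.Stm

set_option autoImplicit false

open Finset Classical

namespace R128.AI

theorem USum.one {α : Type} (G A B : Finset α) (hA : A ⊆ G) (hB : B ⊆ G) (hd : Disjoint A B)
    (hne : B.Nonempty) :
    ∑ x ∈ G, (if x ∉ A then wt A.card (B.erase x).card else 0) = (G.card : ℝ) * wt A.card B.card := by
  set a := A.card with ha
  set b := B.card with hb
  have hb1 : 1 ≤ b := hne.card_pos
  have hsub : B ⊆ G \ A := by
    intro y hy
    rw [mem_sdiff]
    exact ⟨hB hy, fun h => (Finset.disjoint_left.1 hd) h hy⟩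
  have e1 : ∑ x ∈ G, (if x ∉ A then wt a (B.erase x).card else 0)
      = ∑ x ∈ G \ A, wt a (B.erase x).card := by
    rw [← Finset.sum_sdiff hA]
    have : ∑ x ∈ A, (if x ∉ A then wt a (B.erase x).card else 0) = 0 := by
      apply Finset.sum_eq_zero
      intro x hx; simp [hx]
    rw [this, add_zero]
    apply Finset.sum_congr rfl
    intro x hx
    rw [mem_sdiff] at hx
    simp [hx.2]
  rw [e1, ← Finset.sum_sdiff hsub]
  have e2 : ∑ x ∈ B, wt a (B.erase x).card = b / ((a + (b - 1)).choose a : ℝ) := by
    have : ∀ x ∈ B, wt a (B.erase x).card = 1 / ((a + (b - 1)).choose a : ℝ) := by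
      intro x hx
      rw [Finset.card_erase_of_mem hx]
      rfl
    rw [Finset.sum_congr rfl this, Finset.sum_const, nsmul_eq_mul, ← hb]
    ring
  have e3 : ∑ x ∈ (G \ A) \ B, wt a (B.erase x).card
      = ((G.card : ℝ) - a - b) * (1 / ((a + b).choose a : ℝ)) := by
    have : ∀ x ∈ (G \ A) \ B, wt a (B.erase x).card = 1 / ((a + b).choose a : ℝ) := by
      intro x hx
      rw [mem_sdiff] at hx
      rw [Finset.erase_eq_of_notMem hx.2]
      rfl
    rw [Finset.sum_congr rfl this, Finset.sum_const, nsmul_eq_mul]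
    have hc1 : ((G \ A) \ B).card + b = (G \ A).card := by
      rw [hb]; exact Finset.card_sdiff_add_card_eq_card hsub
    have hc2 : (G \ A).card + a = G.card := by
      rw [ha]; exact Finset.card_sdiff_add_card_eq_card hA
    have hc3 : (((G \ A) \ B).card : ℝ) = (G.card : ℝ) - a - b := by
      have h1 : (((G \ A) \ B).card : ℝ) + b = ((G \ A).card : ℝ) := by exact_mod_cast hc1
      have h2 : ((G \ A).card : ℝ) + a = (G.card : ℝ) := by exact_mod_cast hc2
      linarith
    rw [hc3]
  rw [e2, e3, Pool.Agent.H416Sens.choose_id a b hb1]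
  unfold wt
  ring

theorem USum_proof : USum_stm := by
  intro ι α G I A B hA hB hd hne
  have h1 : ∀ x ∈ G, ∑ i ∈ I.filter (fun i => x ∉ A i), wt (A i).card ((B i).erase x).card =
      ∑ i ∈ I, (if x ∉ A i then wt (A i).card ((B i).erase x).card else 0) := by
    intro x _
    rw [Finset.sum_filter]
  rw [Finset.sum_congr rfl h1, Finset.sum_comm, Finset.mul_sum]
  exact Finset.sum_congr rfl fun i hi => USum.one G (A i) (B i) (hA i hi) (hB i hi) (hd i hi) (hne i hi)

end R128.AI
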