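import Pool.Agent.R128.AI.Stm

/-! AI-Uni (helper45). -/

set_option autoImplicit false

open Finset Classical

namespace R128.AI

theorem Uni_proof : Uni_stm := by
  intro hUS hUE hUC a ι α _ T U ha hT hU hC hcard
  have hsz := hUS a ι α T U ha hT hU hC hcard
  have hTa : ∀ i, (T i).card = a := fun i => (hsz i).1
  have hUa : ∀ i, (U i).card = a := fun i => (hsz i).2
  have hpos : 0 < Fintype.card ι := by
    rw [hcard]; exact Nat.choose_pos (by omega)
  obtain ⟨i0⟩ := Fintype.card_pos_iff.mp hpos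
  set Y : Finset α := T i0 ∪ U i0 with hY
  have hYc : Y.card = 2 * a := by
    rw [hY, Finset.card_union_of_disjoint (hC.1 i0), hTa, hUa]; omega
  have hall : ∀ E : Finset α, E ⊆ Y → E.card = a → ∃ i, T i = E ∧ U i = Y \ E := by
    refine hUC a α Y (T i0) (fun E => ∃ i, T i = E ∧ U i = Y \ E) hYc
      Finset.subset_union_left (hTa i0) ?_ ?_
    · refine ⟨i0, rfl, ?_⟩
      rw [hY, Finset.union_sdiff_left]
      exact (Finset.sdiff_eq_self_of_disjoint (hC.1 i0).symm).symm
    · rintro E hEY hEa ⟨i, hTi, hUi⟩ x hx y hy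
      obtain ⟨j, hj1, hj2⟩ := hUE a ι α T U ha hTa hUa hC hcard i x (by rw [hTi]; exact hx) y
        (by rw [hUi]; exact hy)
      refine ⟨j, by rw [hj1, hTi], ?_⟩
      rw [hj2, hUi]
      rw [Finset.mem_sdiff] at hy
      have hxy : x ≠ y := fun h => hy.2 (h ▸ hx)
      ext z
      simp only [Finset.mem_insert, Finset.mem_erase, Finset.mem_sdiff, not_or, not_and, not_not]
      constructor
      · rintro (rfl | ⟨h1, h2, h3⟩)
        · exact ⟨hEY hx, hxy, fun h => absurd rfl h⟩
        · exact ⟨h2, h1, fun _ => h3⟩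
      · rintro ⟨h1, h2, h3⟩
        by_cases hzx : z = x
        · exact Or.inl hzx
        · exact Or.inr ⟨h2, h1, h3 hzx⟩
  have hch : ∀ E : {E // E ∈ powersetCard a Y}, ∃ i, T i = E.1 ∧ U i = Y \ E.1 := by
    rintro ⟨E, hE⟩
    rw [Finset.mem_powersetCard] at hE
    exact hall E hE.1 hE.2
  choose φ hφ using hch
  have hinj : Function.Injective φ := by
    intro E E' h
    apply Subtype.ext
    rw [← (hφ E).1, ← (hφ E').1, h]
  have hbij : Function.Bijective φ := by
    rw [Fintype.bijective_iff_injective_and_card]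
    refine ⟨hinj, ?_⟩
    rw [Fintype.card_coe, Finset.card_powersetCard, hYc, hcard]
  have hUmem : ∀ i, U i ∈ powersetCard a Y := by
    intro i
    obtain ⟨E, rfl⟩ := hbij.2 i
    rw [Finset.mem_powersetCard]
    exact ⟨by rw [(hφ E).2]; exact Finset.sdiff_subset, hUa _⟩
  refine ⟨Y, hYc, hUmem, ?_⟩
  intro E hE
  rw [Finset.mem_powersetCard] at hE
  obtain ⟨i, _, hi⟩ := hall (Y \ E) Finset.sdiff_subset (by
    rw [Finset.card_sdiff_of_subset hE.1]; omega)
  refine ⟨i, ?_⟩
  rw [hi, Finset.sdiff_sdiff_eq_self hE.1]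

end R128.AI
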