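import Pool.Agent.R128.AI.Stm

/-!
# Project AI, piece Van (helper562): the vanishing lemma
-/

set_option autoImplicit false

open Finset Classical

namespace R128.AI

lemma Van.PP_insert (T E : Finset ℝ) (w : ℝ) (hw : w ∉ E) :
    PP T (insert w E) = (∏ x ∈ T, (w - x)) * PP T E := by
  unfold PP
  rw [prod_insert hw]

lemma Van.PP_erase (T Z : Finset ℝ) (z : ℝ) (hz : z ∈ Z) :
    PP T Z = (∏ x ∈ T, (z - x)) * PP T (Z.erase z) := by
  conv_lhs => rw [← insert_erase hz]
  exact Van.PP_insert T _ z (notMem_erase z Z)

/-- the one-variable step -/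
lemma Van.step {ι : Type} [Fintype ι] (d : ℕ) (T : ι → Finset ℝ) (b : ι → ℝ) (S : Finset ℝ)
    (hT : ∀ i, (T i).card = d) (hS : d < S.card)
    (h : ∀ w ∈ S, ∑ i, b i * ∏ x ∈ T i, (w - x) = 0) (z : ℝ) :
    ∑ i, b i * ∏ x ∈ T i, (z - x) = 0 := by
  let q : Polynomial ℝ := ∑ i, Polynomial.C (b i) * ∏ x ∈ T i, (Polynomial.X - Polynomial.C x)
  have hev : ∀ w, q.eval w = ∑ i, b i * ∏ x ∈ T i, (w - x) := by
    intro w
    simp only [q, Polynomial.eval_finset_sum, Polynomial.eval_mul, Polynomial.eval_C,
      Polynomial.eval_prod, Polynomial.eval_sub, Polynomial.eval_X]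
  have hdeg : q.natDegree ≤ d := by
    apply Polynomial.natDegree_sum_le_of_forall_le
    intro i _
    refine (Polynomial.natDegree_C_mul_le _ _).trans ?_
    refine (Polynomial.natDegree_prod_le _ _).trans ?_
    simp [hT i]
  have hq : q = 0 := by
    apply Polynomial.eq_zero_of_natDegree_lt_card_of_eval_eq_zero' q S
    · intro w hw
      rw [hev]
      exact h w hw
    · exact lt_of_le_of_lt hdeg hS
  rw [← hev, hq, Polynomial.eval_zero]

theorem Van_proof : Van_stm := by
  intro ι _ d m T c D hT
  induction m generalizing c with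
  | zero =>
    intro _ h Z hZ
    rw [card_eq_zero.mp hZ]
    exact h ∅ (empty_subset _) card_empty
  | succ m ih =>
    intro hD h Z hZ
    obtain ⟨z, hz⟩ : Z.Nonempty := by
      rw [← card_pos]; omega
    have h1 := ih (fun i => c i * ∏ x ∈ T i, (z - x)) (by omega) (by
      intro E hE hEc
      have hst := Van.step d T (fun i => c i * PP (T i) E) (D \ E) hT (by
        rw [card_sdiff_of_subset hE]; omega) (by
        intro w hw
        rw [mem_sdiff] at hw
        have h2 := h (insert w E) (by
          intro y hy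
          rcases mem_insert.mp hy with rfl | hy
          · exact hw.1
          · exact hE hy) (by rw [card_insert_of_notMem hw.2, hEc])
        rw [← h2]
        refine sum_congr rfl fun i _ => ?_
        rw [Van.PP_insert _ _ _ hw.2]
        ring) z
      rw [← hst]
      refine sum_congr rfl fun i _ => ?_
      ring) (Z.erase z) (by rw [card_erase_of_mem hz]; omega)
    rw [← h1]
    refine sum_congr rfl fun i _ => ?_
    rw [Van.PP_erase _ _ _ hz]
    ring

end R128.AI
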