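import Pool.Agent.R128.AI.Assembly
import Pool.Agent.R128.AI.PZ
import Pool.Agent.R128.AI.PS
import Pool.Agent.R128.AI.Van
import Pool.Agent.R128.AI.Intp
import Pool.Agent.R128.AI.LA1
import Pool.Agent.R128.AI.LA2
import Pool.Agent.R128.AI.LA3
import Pool.Agent.R128.AI.RankA
import Pool.Agent.R128.AI.Ind
import Pool.Agent.R128.AI.Thr
import Pool.Agent.R128.AI.RankB
import Pool.Agent.R128.AI.MixR
import Pool.Agent.R128.AI.Pad
import Pool.Agent.R128.AI.Mix
import Pool.Agent.R128.AI.Bol
import Pool.Agent.R128.AI.USize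
import Pool.Agent.R128.AI.USum
import Pool.Agent.R128.AI.UDel
import Pool.Agent.R128.AI.UDels
import Pool.Agent.R128.AI.UExH
import Pool.Agent.R128.AI.UEx
import Pool.Agent.R128.AI.UCon
import Pool.Agent.R128.AI.Uni
import Pool.Agent.R128.AI.MinC
import Pool.Agent.R128.AI.Crude
import Pool.Agent.R128.AI.Heavy
import Pool.Agent.R128.AI.Near
import Pool.Agent.R128.AI.Str
import Pool.Agent.R128.AI.CovB
import Pool.Agent.R128.AI.NLow
import Pool.Agent.R128.AI.Meet
import Pool.Agent.R128.AI.MeetE
import Pool.Agent.R128.AI.TrB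
import Pool.Agent.R128.AI.CntY
import Pool.Agent.R128.AI.CaseY
import Pool.Agent.R128.AI.Num1
import Pool.Agent.R128.AI.Num2
import Pool.Agent.R128.AI.Main

set_option autoImplicit false

open Finset

namespace R128.AI

theorem main_thm : Main :=
  main_of PZ_proof PS_proof Van_proof Intp_proof LA1_proof LA2_proof LA3_proof RankA_proof
    Ind_proof Thr_proof RankB_proof MixR_proof Pad_proof Mix_proof Bol_proof USize_proof
    USum_proof UDel_proof UDels_proof UExH_proof UEx_proof UCon_proof Uni_proof MinC_proof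
    Crude_proof Heavy_proof Near_proof Str_proof CovB_proof NLow_proof Meet_proof MeetE_proof
    TrB_proof CntY_proof CaseY_proof Num1_proof Num2_proof Main_proof

end R128.AI

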