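import Pool.Agent.R128.AI.Stm

set_option autoImplicit false

open Finset Classical

namespace R128.AI

theorem LA1_proofb : LA1_stm := by
  intro ε ι κ _ _ _ σ w v u v' hw h1 h2 h3 h4 h5
  set X := Submodule.span ℝ (Set.range v') with hX
  -- the form
  let B : (ε → ℝ) →ₗ[ℝ] (ε → ℝ) →ₗ[ℝ] ℝ :=
    LinearMap.mk₂ ℝ (fun x y => ∑ e, w e * x e * y (σ e))
      (by intro x x' y; rw [← Finset.sum_add_distrib]; apply Finset.sum_congr rfl; intro e _
          simp; ring)
      (by intro c x y; rw [smul_eq_mul, Finset.mul_sum]; apply Finset.sum_congr rfl; intro e _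
          simp; ring)
      (by intro x y y'; rw [← Finset.sum_add_distrib]; apply Finset.sum_congr rfl; intro e _
          simp; ring)
      (by intro c x y; rw [smul_eq_mul, Finset.mul_sum]; apply Finset.sum_congr rfl; intro e _
          simp; ring)
  have hB : ∀ x y, B x y = ∑ e, w e * x e * y (σ e) := fun x y => rfl
  have hBinj : Function.Injective B := by
    rw [injective_iff_map_eq_zero]
    intro x hx
    funext e
    have h := congrArg (fun f => f (Pi.single (σ e) (1 : ℝ))) hx
    simp only [hB, LinearMap.zero_apply] at h
    rw [Finset.sum_eq_single e] at h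
    · simp at h
      rcases h with h | h
      · exact absurd h (hw e)
      · simpa using h
    · intro e' _ hne
      have : σ e' ≠ σ e := fun h => hne (σ.injective h)
      simp [this]
    · intro h; exact absurd (Finset.mem_univ e) h
  -- independence of v modulo X
  let Y := Submodule.span ℝ (Set.range v) ⊔ X
  have hvlin : LinearIndependent ℝ v := by
    rw [Fintype.linearIndependent_iff]
    intro c hc i
    have h := congrArg (fun x => B x (u i)) hc
    simp only [map_sum, map_smul, LinearMap.sum_apply, LinearMap.smul_apply, hB, map_zero,
      LinearMap.zero_apply, smul_eq_mul] at h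
    rw [Finset.sum_eq_single i] at h
    · rcases mul_eq_zero.1 h with h | h
      · exact h
      · exact absurd h (h1 i)
    · intro j _ hji
      rw [h2 j i hji, mul_zero]
    · intro h; exact absurd (Finset.mem_univ i) h
  have hXu : ∀ x ∈ X, ∀ i, B x (u i) = 0 := by
    intro x hx i
    have : X ≤ LinearMap.ker (B.flip (u i)) := by
      rw [hX, Submodule.span_le]
      rintro _ ⟨j, rfl⟩
      simp only [SetLike.mem_coe, LinearMap.mem_ker, LinearMap.flip_apply, hB]
      exact h4 j i
    exact this hx
  have hdisj : Disjoint (Submodule.span ℝ (Set.range v)) X := by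
    rw [Submodule.disjoint_def]
    intro x hx hxX
    rw [Submodule.mem_span_range_iff_exists_fun] at hx
    obtain ⟨c, rfl⟩ := hx
    have hc : ∀ i, c i = 0 := by
      intro i
      have h := hXu _ hxX i
      simp only [map_sum, map_smul, LinearMap.sum_apply, LinearMap.smul_apply, hB,
        smul_eq_mul] at h
      rw [Finset.sum_eq_single i] at h
      · rcases mul_eq_zero.1 h with h | h
        · exact h
        · exact absurd h (h1 i)
      · intro j _ hji
        rw [h2 j i hji, mul_zero]
      · intro h; exact absurd (Finset.mem_univ i) h
    simp [hc]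
  have hdimY : Module.finrank ℝ Y = Fintype.card ι + Module.finrank ℝ X := by
    have h := Submodule.finrank_sup_add_finrank_inf_eq (Submodule.span ℝ (Set.range v)) X
    rw [hdisj.eq_bot, finrank_bot, add_zero] at h
    rw [h, finrank_span_eq_card hvlin]
  -- Y is in the annihilator of X
  have hann : ∀ x ∈ X, ∀ y ∈ Y, B x y = 0 := by
    intro x hx y hy
    have hx1 : ∀ y ∈ Set.range v ∪ Set.range v', B x y = 0 := by
      intro y hy
      have : X ≤ LinearMap.ker (B.flip y) := by
        rw [hX, Submodule.span_le]
        rintro _ ⟨j, rfl⟩
        simp only [SetLike.mem_coe, LinearMap.mem_ker, LinearMap.flip_apply, hB]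
        rcases hy with ⟨i, rfl⟩ | ⟨l, rfl⟩
        · exact h3 j i
        · exact h5 j l
      exact this hx
    have : Y ≤ LinearMap.ker (B x) := by
      rw [show Y = Submodule.span ℝ (Set.range v ∪ Set.range v') by
        rw [Submodule.span_union], Submodule.span_le]
      intro y hy
      exact hx1 y hy
    exact this hy
  -- count
  have hle : Module.finrank ℝ X ≤ Module.finrank ℝ (Submodule.dualAnnihilator Y) := by
    have : ∀ x : X, B x.1 ∈ Submodule.dualAnnihilator Y := by
      intro x
      rw [Submodule.mem_dualAnnihilator]
      intro y hy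
      exact hann x.1 x.2 y hy
    let f : X →ₗ[ℝ] Submodule.dualAnnihilator Y :=
      LinearMap.codRestrict _ (B.comp X.subtype) this
    apply LinearMap.finrank_le_finrank_of_injective (f := f)
    intro x y hxy
    have h := congrArg Subtype.val hxy
    exact Subtype.ext (hBinj h)
  have htot := Subspace.finrank_add_finrank_dualAnnihilator_eq Y
  rw [Module.finrank_fintype_fun_eq_card] at htot
  omega

end R128.AI
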