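import Pool.Agent.R128.AI.Stm

/-! AI-TrB (helper45). -/

set_option autoImplicit false

open Finset Classical

namespace R128.AI

theorem TrB_proof : TrB_stm := by
  intro a s α F Y ha hF hY hBY hT T hTY
  rw [Finset.mem_powersetCard] at hTY
  have hcard : (Y \ T).card = a := by
    rw [Finset.card_sdiff_of_subset hTY.1]
    omega
  obtain ⟨A0, hA0, hA0Y⟩ := hT (Y \ T) (Finset.mem_powersetCard.mpr ⟨Finset.sdiff_subset, hcard⟩)
  have hone : ∀ B ∈ F, (B \ Y).card = 1 := by
    intro B hB
    have h1 := hF.1 B hB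
    have h2 := hBY B hB
    have h3 := Finset.card_sdiff_add_card_inter B Y
    omega
  have hsub : F.filter (fun B => B ∩ Y = T) ⊆
      insert (T ∪ (A0 \ Y)) (F.filter (fun B => Disjoint A0 B)) := by
    intro B hB
    rw [Finset.mem_filter] at hB
    rw [Finset.mem_insert]
    by_cases hd : Disjoint A0 B
    · exact Or.inr (Finset.mem_filter.mpr ⟨hB.1, hd⟩)
    · left
      obtain ⟨z, hzA, hzB⟩ := Finset.not_disjoint_iff.mp hd
      have hzY : z ∉ Y := by
        intro hzY
        have h1 : z ∈ Y \ T := by rw [← hA0Y]; exact Finset.mem_inter.mpr ⟨hzA, hzY⟩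
        have h2 : z ∈ T := by rw [← hB.2]; exact Finset.mem_inter.mpr ⟨hzB, hzY⟩
        exact (Finset.mem_sdiff.mp h1).2 h2
      obtain ⟨u, hu⟩ := Finset.card_eq_one.mp (hone B hB.1)
      obtain ⟨v, hv⟩ := Finset.card_eq_one.mp (hone A0 hA0)
      have hzu : z = u := by
        have : z ∈ B \ Y := Finset.mem_sdiff.mpr ⟨hzB, hzY⟩
        rw [hu] at this
        exact Finset.mem_singleton.mp this
      have hzv : z = v := by
        have : z ∈ A0 \ Y := Finset.mem_sdiff.mpr ⟨hzA, hzY⟩
        rw [hv] at this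
        exact Finset.mem_singleton.mp this
      have h1 : B \ Y = A0 \ Y := by rw [hu, hv, ← hzu, ← hzv]
      rw [← h1, ← hB.2, Finset.union_comm]
      exact (Finset.sdiff_union_inter B Y).symm
  calc (F.filter (fun B => B ∩ Y = T)).card
      ≤ (insert (T ∪ (A0 \ Y)) (F.filter (fun B => Disjoint A0 B))).card :=
        Finset.card_le_card hsub
    _ ≤ (F.filter (fun B => Disjoint A0 B)).card + 1 := Finset.card_insert_le _ _
    _ ≤ s + 1 := by
        have := (hF.2 A0 hA0).2
        omega

end R128.AI
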