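import Pool.Agent.R128.AI.Stm

set_option autoImplicit false

open Finset Classical

namespace R128.AI

theorem USize.ch_le {a x y : ℕ} (hx : x ≤ a) (hy : y ≤ a) :
    (x + y).choose x ≤ (2 * a).choose a := by
  calc (x + y).choose x ≤ (x + a).choose x := Nat.choose_le_choose _ (by omega)
    _ = (x + a).choose a := Nat.choose_symm_add
    _ ≤ (2 * a).choose a := Nat.choose_le_choose _ (by omega)

theorem USize.ch_lt {a x y : ℕ} (ha : 1 ≤ a) (hx : x ≤ a) (hy : y ≤ a) (h : ¬ (x = a ∧ y = a)) :
    (x + y).choose x < (2 * a).choose a := by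
  obtain ⟨k, rfl⟩ : ∃ k, a = k + 1 := ⟨a - 1, by omega⟩
  have key : ∀ z, z < k + 1 → (z + (k + 1)).choose (k + 1) < (2 * (k + 1)).choose (k + 1) := by
    intro z hz
    have h1 : (z + 1 + (k + 1)).choose (k + 1) = (z + (k + 1)).choose k + (z + (k + 1)).choose (k + 1) := by
      rw [show z + 1 + (k + 1) = (z + (k + 1)) + 1 by ring, Nat.choose_succ_succ]
    have h2 : 0 < (z + (k + 1)).choose k := Nat.choose_pos (by omega)
    have h3 : (z + 1 + (k + 1)).choose (k + 1) ≤ (2 * (k + 1)).choose (k + 1) :=
      Nat.choose_le_choose _ (by omega)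
    omega
  rcases Nat.lt_or_ge x (k + 1) with hx' | hx'
  · calc (x + y).choose x ≤ (x + (k + 1)).choose x := Nat.choose_le_choose _ (by omega)
      _ = (x + (k + 1)).choose (k + 1) := Nat.choose_symm_add
      _ < _ := key x hx'
  · have hxe : x = k + 1 := by omega
    have hy' : y < k + 1 := by omega
    rw [hxe, Nat.add_comm (k + 1) y]
    exact key y hy'

theorem USize_proof : USize_stm := by
  intro a ι α _ T U ha hT hU hC hcard
  have hb := Pool.Agent.H416Sens.bollobas (Finset.univ.biUnion (fun i : ι => T i ∪ U i))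
    (Finset.univ : Finset ι) T U
    (fun i _ => (Finset.subset_union_left).trans
      (Finset.subset_biUnion_of_mem (fun i : ι => T i ∪ U i) (Finset.mem_univ i)))
    (fun i _ => (Finset.subset_union_right).trans
      (Finset.subset_biUnion_of_mem (fun i : ι => T i ∪ U i) (Finset.mem_univ i)))
    (fun i _ => hC.1 i) (fun i _ j _ hij => hC.2 i j hij)
  intro i0
  by_contra hcon
  have hpos : (0 : ℝ) < ((2 * a).choose a : ℝ) := by
    exact_mod_cast Nat.choose_pos (show a ≤ 2 * a by omega)
  have hlt : ∑ _i : ι, (1 : ℝ) / ((2 * a).choose a : ℝ) <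
      ∑ i : ι, (1 : ℝ) / (((T i).card + (U i).card).choose (T i).card : ℝ) := by
    apply Finset.sum_lt_sum
    · intro i _
      have h1 := USize.ch_le (hT i) (hU i)
      have h2 : 0 < ((T i).card + (U i).card).choose (T i).card := Nat.choose_pos (by omega)
      exact one_div_le_one_div_of_le (by exact_mod_cast h2) (by exact_mod_cast h1)
    · refine ⟨i0, Finset.mem_univ _, ?_⟩
      have h1 := USize.ch_lt ha (hT i0) (hU i0) hcon
      have h2 : 0 < ((T i0).card + (U i0).card).choose (T i0).card := Nat.choose_pos (by omega)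
      exact one_div_lt_one_div_of_lt (by exact_mod_cast h2) (by exact_mod_cast h1)
  rw [Finset.sum_const, Finset.card_univ, hcard, nsmul_eq_mul, mul_one_div_cancel hpos.ne'] at hlt
  linarith

end R128.AI
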